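import Pool.Agent.LibPU19.Fam

/-! The count for families of potentials. -/

open Matrix Complex MeasureTheory Filter Topology
open UpperHalfPlane hiding I
open scoped ContDiff

namespace PU19

open SP38 US38

variable {ι : Type} [Fintype ι]
variable {Ω : Set ℂ} {r : ℂ → ℝ} {N T u : ℂ → ι → ℂ → ℂ} {h : ℂ → ι → ℂ → ℝ} {t : ℂ} {L : ℂ → ℂ}

/-- a product over the family is given by the local data -/
theorem PFam.prod_eq (hF : PFam Ω r N T u h) {E : Type*} [CommMonoid E]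
    {f : ℂ → ι → ℂ → E} (hf : ∀ t' i t i', N t' i' =ᶠ[𝓝 t'] N t i → f t' i' t' = f t i t')
    (ht : t ∈ Ω) {x : ℂ} (hx : x ∈ Metric.ball t (r t)) :
    ∏ i, f x i x = ∏ i, f t i x := by
  obtain ⟨π, hπ⟩ := hF.comp t ht x hx
  rw [← Equiv.prod_comp π fun i => f x i x]
  exact Finset.prod_congr rfl fun i _ => hf x i t (π i) (hπ i).1

/-- the zeros are countable -/
theorem PFam.zeros (hF : PFam Ω r N T u h)
    (hiso : ∀ t ∈ Ω, ∀ i, ∀ᶠ x in 𝓝[≠] t, N t i x ≠ 0) :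
    {t | t ∈ Ω ∧ ∃ i, N t i t = 0}.Countable := by
  have h1 : ∀ t ∈ Ω, {x | x ∈ Ω → x ≠ t → ∀ i, N x i x ≠ 0} ∈ 𝓝[Ω] t := by
    intro t ht
    refine mem_nhdsWithin_of_mem_nhds ?_
    have h2 : ∀ᶠ x in 𝓝[≠] t, ∀ i, N t i x ≠ 0 := eventually_all.2 fun i => hiso t ht i
    rw [eventually_nhdsWithin_iff] at h2
    filter_upwards [h2, Metric.ball_mem_nhds t (hF.rpos t ht)] with x h3 h4 _ hne i hi
    obtain ⟨π, hπ⟩ := hF.comp t ht x h4
    have h5 := h3 hne (π.symm i)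
    have h6 := (hπ (π.symm i)).1.self_of_nhds
    rw [Equiv.apply_symm_apply] at h6
    rw [← h6] at h5
    exact h5 hi
  obtain ⟨S, hS, hSc, hcov⟩ := TopologicalSpace.countable_cover_nhdsWithin h1
  refine hSc.mono ?_
  rintro t ⟨ht, i, hi⟩
  obtain ⟨x, hx, h7⟩ := Set.mem_iUnion₂.1 (hcov ht)
  by_contra hne
  exact h7 ht (fun h8 => hne (h8 ▸ hx)) i hi

/-- the lower bound on small circles -/
theorem PFam.lower (hF : PFam Ω r N T u h) (hL : SmS Ω L) (hΩ : IsOpen Ω)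
    (hiso : ∀ t ∈ Ω, ∀ i, ∀ᶠ x in 𝓝[≠] t, N t i x ≠ 0) {b : ℂ} {r₁ : ℝ} (hr₁ : 0 < r₁)
    (hb : ∀ t, 0 < ‖t - b‖ → ‖t - b‖ < r₁ → t ∈ Ω) {r₀ : ℝ} (hr₀ : 0 < r₀) :
    ∃ ρ : ℝ, 0 < ρ ∧ ρ < r₀ ∧ ∃ l : ℝ, ∀ ε : ℝ, 0 < ε → ∀ t : ℂ, ‖t - b‖ = ρ →
      l ≤ (GG N u L ε t).re := by
  have hZ := (hF.zeros hiso).image (fun t => ‖t - b‖)
  obtain ⟨ρ, ⟨hρ0, hρ1⟩, hρZ⟩ : ∃ ρ ∈ Set.Ioo (0 : ℝ) (min r₀ r₁),
      ρ ∉ (fun t => ‖t - b‖) '' {t | t ∈ Ω ∧ ∃ i, N t i t = 0} := by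
    by_contra hcon
    push Not at hcon
    have h1 : (Set.Ioo (0 : ℝ) (min r₀ r₁)).Countable := hZ.mono hcon
    exact (Cardinal.Real.Ioo_countable_iff.1 h1).not_gt (lt_min hr₀ hr₁)
  have hρr : ρ < r₁ := hρ1.trans_le (min_le_right _ _)
  have hsub : ∀ t, ‖t - b‖ = ρ → t ∈ Ω := fun t ht => hb t (by rw [ht]; exact hρ0)
    (by rw [ht]; exact hρr)
  have hne : ∀ t, ‖t - b‖ = ρ → ∀ i, 0 < (N t i t).re := by
    intro t ht i
    have ht' := Metric.mem_ball_self (hF.rpos t (hsub t ht)) (x := t)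
    refine lt_of_le_of_ne (hF.nnN t (hsub t ht) i t ht') fun h0 => hρZ ?_
    refine ⟨t, ⟨hsub t ht, i, ?_⟩, ht⟩
    exact Complex.ext (by simpa using h0.symm) (by simpa using hF.imN t (hsub t ht) i t ht')
  set g : ℂ → ℝ := fun t => ∑ i, Real.log (N t i t).re + 3 * (UU u L t).re with hg
  have hgc : ContinuousOn g (Metric.sphere b ρ) := by
    intro t ht
    rw [mem_sphere_iff_norm] at ht
    have htΩ := hsub t ht
    have hbn : Metric.ball t (r t) ∈ 𝓝 t := Metric.ball_mem_nhds t (hF.rpos t htΩ)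
    have ht' := Metric.mem_ball_self (hF.rpos t htΩ) (x := t)
    have h1 : ContinuousAt (fun x => ∑ i, Real.log (N t i x).re + 3 * (UU u L x).re) t := by
      refine ContinuousAt.add (tendsto_finsetSum _ fun i _ => ?_)
        (continuousAt_const.mul (Complex.continuous_re.continuousAt.comp
          ((hF.smUU hL hΩ).continuousOn.continuousAt (hΩ.mem_nhds htΩ))))
      exact (Complex.continuous_re.continuousAt.comp
        ((hF.smN t htΩ i).continuousOn.continuousAt hbn)).log (hne t ht i).ne'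
    refine (h1.congr ?_).continuousWithinAt
    filter_upwards [hbn] with x hx
    rw [hg]
    simp only
    rw [hF.sum_eq (f := fun t i x => Real.log (N t i x).re)
      (fun t' i t i' h1 _ _ _ => by rw [h1.self_of_nhds]) htΩ hx]
  obtain ⟨t₀, ht₀, hmin⟩ := (isCompact_sphere b ρ).exists_isMinOn
    (NormedSpace.sphere_nonempty.2 hρ0.le) hgc
  refine ⟨ρ, hρ0, hρ1.trans_le (min_le_left _ _), g t₀, fun ε hε t ht => ?_⟩
  have h1 : g t₀ ≤ g t := hmin (by rw [mem_sphere_iff_norm]; exact ht)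
  refine h1.trans ?_
  have h2 : (GG N u L ε t).re = ∑ i, Real.log ((N t i t).re + ε) + 3 * (UU u L t).re := by
    rw [GG, Complex.add_re, re_sum, Complex.mul_re]
    simp
  rw [h2, hg]
  simp only
  gcongr with i
  · exact hne t ht i
  · linarith

theorem PFam.GG_re (hF : PFam Ω r N T u h) (ht : t ∈ Ω) {ε : ℝ} (hε : 0 < ε) :
    (GG N u L ε t).re = Real.log (Real.exp (3 * (UU u L t).re) * ∏ i, ((N t i t).re + ε)) := by
  have ht' := Metric.mem_ball_self (hF.rpos t ht) (x := t)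
  have hpos : ∀ i, 0 < (N t i t).re + ε := fun i =>
    add_pos_of_nonneg_of_pos (hF.nnN t ht i t ht') hε
  rw [Real.log_mul (Real.exp_pos _).ne' (Finset.prod_pos fun i _ => hpos i).ne', Real.log_exp,
    Real.log_prod fun i _ => (hpos i).ne', GG, Complex.add_re, re_sum, Complex.mul_re]
  simp only [Complex.ofReal_re, Complex.re_ofNat, Complex.im_ofNat]
  ring

/-- the upper bound near a puncture -/
theorem PFam.upper (hF : PFam Ω r N T u h) (hL : SmS Ω L) (hΩ : IsOpen Ω) {b : ℂ} {r₀ : ℝ}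
    (hb : ∀ t, 0 < ‖t - b‖ → ‖t - b‖ < r₀ → t ∈ Ω) {C ν : ℝ}
    (hC : ∀ t, 0 < ‖t - b‖ → ‖t - b‖ < r₀ →
      Real.exp (3 * (UU u L t).re) * ∏ i, (N t i t).re ≤ C * ‖t - b‖ ^ ν) :
    ∃ C' : ℝ, ∀ ρ : ℝ, 0 < ρ → ρ < r₀ → ∀ᶠ ε in 𝓝[>] (0 : ℝ), ∀ t : ℂ, ‖t - b‖ = ρ →
      (GG N u L ε t).re ≤ ν * Real.log ρ + C' := by
  refine ⟨Real.log (|C| + 1), fun ρ hρ0 hρr => ?_⟩
  have hρν : 0 < ρ ^ ν := Real.rpow_pos_of_pos hρ0 ν
  have hsub : ∀ t, ‖t - b‖ = ρ → t ∈ Ω := fun t ht => hb t (by rw [ht]; exact hρ0)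
    (by rw [ht]; exact hρr)
  have key : ∀ᶠ ε in 𝓝 (0 : ℝ), ∀ t ∈ Metric.sphere b ρ,
      Real.exp (3 * (UU u L t).re) * ∏ i, ((N t i t).re + ε) < (|C| + 1) * ρ ^ ν := by
    refine (isCompact_sphere b ρ).eventually_forall_of_forall_eventually fun t ht => ?_
    rw [mem_sphere_iff_norm] at ht
    have htΩ := hsub t ht
    have hbn : Metric.ball t (r t) ∈ 𝓝 t := Metric.ball_mem_nhds t (hF.rpos t htΩ)
    have h1 : ContinuousAt (fun p : ℝ × ℂ =>
        Real.exp (3 * (UU u L p.2).re) * ∏ i, ((N t i p.2).re + p.1)) (0, t) := by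
      refine ContinuousAt.mul ?_ (tendsto_finsetProd _ fun i _ => ?_)
      · refine Real.continuous_exp.continuousAt.comp (continuousAt_const.mul
          (Complex.continuous_re.continuousAt.comp ?_))
        exact ContinuousAt.comp (f := Prod.snd) (x := ((0, t) : ℝ × ℂ))
          ((hF.smUU hL hΩ).continuousOn.continuousAt (hΩ.mem_nhds htΩ)) continuousAt_snd
      · refine ContinuousAt.add (Complex.continuous_re.continuousAt.comp ?_) continuousAt_fst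
        exact ContinuousAt.comp (f := Prod.snd) (x := ((0, t) : ℝ × ℂ))
          ((hF.smN t htΩ i).continuousOn.continuousAt hbn) continuousAt_snd
    have h2 : Real.exp (3 * (UU u L t).re) * ∏ i, ((N t i t).re + 0) < (|C| + 1) * ρ ^ ν := by
      have h3 := hC t (by rw [ht]; exact hρ0) (by rw [ht]; exact hρr)
      rw [ht] at h3
      simp only [add_zero]
      refine h3.trans_lt ?_
      have := le_abs_self C
      nlinarith
    have h4 := h1.eventually_lt_const (u := (|C| + 1) * ρ ^ ν) h2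
    have h5 : ∀ᶠ p : ℝ × ℂ in 𝓝 (0, t), p.2 ∈ Metric.ball t (r t) :=
      (continuousAt_snd (p := ((0, t) : ℝ × ℂ))).preimage_mem_nhds hbn
    filter_upwards [h4, h5] with p hp hq
    rw [hF.prod_eq (f := fun t i x => (N t i x).re + p.1)
      (fun t' i t i' h1 => by rw [h1.self_of_nhds]) htΩ hq]
    exact hp
  filter_upwards [nhdsWithin_le_nhds key, self_mem_nhdsWithin] with ε h1 hε t ht
  have hε' : 0 < ε := hε
  have htΩ := hsub t ht
  have ht' := Metric.mem_ball_self (hF.rpos t htΩ) (x := t)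
  rw [hF.GG_re htΩ hε', ← Real.log_rpow hρ0, add_comm (Real.log (ρ ^ ν)),
    ← Real.log_mul (by positivity) hρν.ne']
  refine Real.log_le_log ?_ (h1 t (by rw [mem_sphere_iff_norm]; exact ht)).le
  exact mul_pos (Real.exp_pos _) (Finset.prod_pos fun i _ =>
    add_pos_of_nonneg_of_pos (hF.nnN t htΩ i t ht') hε')

/-- the count for a family of potentials on the punctured plane -/
theorem PFam.count {B : Finset ℂ} (hF : PFam ((B : Set ℂ)ᶜ) r N T u h)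
    (hL : SmS ((B : Set ℂ)ᶜ) L) (himL : ∀ t ∈ ((B : Set ℂ)ᶜ), (L t).im = 0)
    (hharm : ∀ t ∈ ((B : Set ℂ)ᶜ), rho (fun z => SP38.dz L z / 2) t = 0)
    (hiso : ∀ t ∈ ((B : Set ℂ)ᶜ), ∀ i, ∀ᶠ x in 𝓝[≠] t, N t i x ≠ 0)
    (hUb : ∀ b ∈ B, ∃ C r₀ : ℝ, 0 < r₀ ∧ ∀ t, 0 < ‖t - b‖ → ‖t - b‖ < r₀ → (UU u L t).re ≤ C)
    (hUi : ∃ A₀ C R : ℝ, ∀ t : ℂ, R ≤ ‖t‖ → (UU u L t).re ≤ A₀ * Real.log ‖t‖ + C)
    {ν : ℂ → ℝ} (hGb : ∀ b ∈ B, ∃ C r₀ : ℝ, 0 < r₀ ∧ ∀ t, 0 < ‖t - b‖ → ‖t - b‖ < r₀ →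
      Real.exp (3 * (UU u L t).re) * ∏ i, (N t i t).re ≤ C * ‖t - b‖ ^ ν b)
    {A : ℝ} (hGi : ∃ C R : ℝ, ∀ t : ℂ, R ≤ ‖t‖ →
      Real.exp (3 * (UU u L t).re) * ∏ i, ((N t i t).re + 1) ≤ C * ‖t‖ ^ A) :
    ∑ b ∈ B, ν b ≤ A := by
  classical
  have hΩ : IsOpen ((B : Set ℂ)ᶜ) := B.finite_toSet.isClosed.isOpen_compl
  obtain ⟨ρ, hρ0, -, hsep⟩ := exists_sep B
  have hnb : ∀ b ∈ B, ∀ t, 0 < ‖t - b‖ → ‖t - b‖ < ρ → t ∈ ((B : Set ℂ)ᶜ) := by
    intro b hb t h0 h1 htB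
    have hne : b ≠ t := by
      rintro rfl
      simp at h0
    have h2 := hsep b hb t htB hne
    rw [dist_comm, dist_eq_norm] at h2
    linarith
  refine punctured (U := fun t => (4 * Fintype.card ι : ℝ) * UU u L t) (Θ := TT h)
    (J := JJ N T u L) (G := GG N u L) (fun ε hε => hF.pdt hΩ hL himL hharm hε) ?_ ?_ ?_ ?_ ?_
  · intro b hb
    obtain ⟨C, r₀, hr₀, hC⟩ := hUb b hb
    refine ⟨(4 * Fintype.card ι : ℝ) * C, ?_⟩
    rw [eventually_nhdsWithin_iff]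
    filter_upwards [Metric.ball_mem_nhds b hr₀] with t ht hne
    rw [Metric.mem_ball, dist_eq_norm] at ht
    have h1 := hC t (norm_pos_iff.2 (sub_ne_zero.2 hne)) ht
    have h2 : ((4 * Fintype.card ι : ℝ) : ℂ) * UU u L t =
        (4 * Fintype.card ι : ℂ) * UU u L t := by push_cast; rfl
    have h3 : ((4 * Fintype.card ι : ℝ) * UU u L t : ℂ).re =
        (4 * Fintype.card ι : ℝ) * (UU u L t).re := by
      rw [← Complex.re_ofReal_mul]
    rw [h3]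
    exact mul_le_mul_of_nonneg_left h1 (by positivity)
  · obtain ⟨A₀, C, R, hC⟩ := hUi
    refine ⟨(4 * Fintype.card ι : ℝ) * A₀, (4 * Fintype.card ι : ℝ) * C, R, fun t ht => ?_⟩
    have h3 : ((4 * Fintype.card ι : ℝ) * UU u L t : ℂ).re =
        (4 * Fintype.card ι : ℝ) * (UU u L t).re := by
      rw [← Complex.re_ofReal_mul]
    rw [h3]
    have := mul_le_mul_of_nonneg_left (hC t ht) (show (0 : ℝ) ≤ 4 * Fintype.card ι by positivity)
    linarith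
  · intro b hb
    obtain ⟨C, r₀, hr₀, hC⟩ := hGb b hb
    obtain ⟨C', hC'⟩ := hF.upper hL hΩ (r₀ := min r₀ ρ) (ν := ν b) (C := C)
      (fun t h0 h1 => hnb b hb t h0 (h1.trans_le (min_le_right _ _)))
      (fun t h0 h1 => hC t h0 (h1.trans_le (min_le_left _ _)))
    exact ⟨C', min r₀ ρ, lt_min hr₀ hρ0, hC'⟩
  · intro b hb r₀ hr₀
    obtain ⟨ρ', h1, h2, l, h3⟩ := hF.lower hL hΩ hiso hρ0 (hnb b hb) hr₀
    exact ⟨ρ', h1, h2, l, eventually_of_mem self_mem_nhdsWithin h3⟩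
  · obtain ⟨C, R, hC⟩ := hGi
    obtain ⟨M, hM⟩ : ∃ M : ℝ, ∀ b ∈ B, ‖b‖ < M := by
      refine ⟨∑ b ∈ B, ‖b‖ + 1, fun b hb => ?_⟩
      have := Finset.single_le_sum (f := fun b : ℂ => ‖b‖) (fun _ _ => norm_nonneg _) hb
      linarith
    have h1 : Set.Iio (1 : ℝ) ∈ 𝓝[>] (0 : ℝ) := nhdsWithin_le_nhds (Iio_mem_nhds one_pos)
    filter_upwards [h1, self_mem_nhdsWithin] with ε hε1 hε
    have hε' : 0 < ε := hε
    have hε1' : ε < 1 := hε1
    refine ⟨Real.log (|C| + 1), max R (max M 1), fun t ht => ?_⟩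
    have hR : R ≤ ‖t‖ := (le_max_left _ _).trans ht
    have hMt : M ≤ ‖t‖ := ((le_max_left M 1).trans (le_max_right _ _)).trans ht
    have h1t : 1 ≤ ‖t‖ := ((le_max_right M 1).trans (le_max_right _ _)).trans ht
    have htΩ : t ∈ ((B : Set ℂ)ᶜ) := fun htB => by
      have := hM t htB
      linarith
    have ht' := Metric.mem_ball_self (hF.rpos t htΩ) (x := t)
    have htA : 0 < ‖t‖ ^ A := Real.rpow_pos_of_pos (by linarith) A
    rw [hF.GG_re htΩ hε', ← Real.log_rpow (by linarith), add_comm (Real.log (‖t‖ ^ A)),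
      ← Real.log_mul (by positivity) htA.ne']
    refine Real.log_le_log (mul_pos (Real.exp_pos _) (Finset.prod_pos fun i _ =>
      add_pos_of_nonneg_of_pos (hF.nnN t htΩ i t ht') hε')) ?_
    have h2 : ∏ i, ((N t i t).re + ε) ≤ ∏ i, ((N t i t).re + 1) :=
      Finset.prod_le_prod (fun i _ => (add_pos_of_nonneg_of_pos (hF.nnN t htΩ i t ht') hε').le)
        fun i _ => by linarith
    have h3 := hC t hR
    have h4 : C * ‖t‖ ^ A ≤ (|C| + 1) * ‖t‖ ^ A :=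
      mul_le_mul_of_nonneg_right (by linarith [le_abs_self C]) htA.le
    exact (mul_le_mul_of_nonneg_left h2 (Real.exp_pos _).le).trans (h3.trans h4)

/-- the logarithm of a holomorphic function -/
noncomputable def lgn (c : ℝ) (f : ℂ → ℂ) (t : ℂ) : ℂ := ((c * Real.log ‖f t‖ : ℝ) : ℂ)

theorem lgn_im (c : ℝ) (f : ℂ → ℂ) (t : ℂ) : (lgn c f t).im = 0 := Complex.ofReal_im _

theorem lgn_loc {c : ℝ} {f : ℂ → ℂ} (hf : Differentiable ℂ f) {t : ℂ} (ht : f t ≠ 0) :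
    ∃ g : ℂ → ℂ, (∃ V ∈ 𝓝 t, IsOpen V ∧ DifferentiableOn ℂ g V ∧
      (∀ x ∈ V, f x ≠ 0 ∧ HasDerivAt g (deriv f x / f x) x)) ∧ ∃ c₀ : ℝ, ∀ x, f x ≠ 0 →
      lgn c f x = ((c * ((g x).re - c₀) : ℝ) : ℂ) := by
  set a : ℂ := (starRingEnd ℂ) (f t) with ha
  have ha0 : a ≠ 0 := by simpa [ha] using ht
  set V : Set ℂ := {x | f x * a ∈ Complex.slitPlane} with hV
  have hVo : IsOpen V := Complex.isOpen_slitPlane.preimage (hf.continuous.mul continuous_const)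
  have htV : t ∈ V := by
    rw [hV, Set.mem_ofPred_eq, ha, Complex.mul_conj]
    left
    rw [Complex.ofReal_re]
    exact Complex.normSq_pos.2 ht
  have hd : ∀ x ∈ V, f x ≠ 0 ∧ HasDerivAt (fun x => Complex.log (f x * a))
      (deriv f x / f x) x := by
    intro x hx
    have hx' : f x * a ∈ Complex.slitPlane := hx
    have h0 : f x ≠ 0 := left_ne_zero_of_mul (Complex.slitPlane_ne_zero hx')
    refine ⟨h0, ?_⟩
    have h1 := ((hf x).hasDerivAt.mul_const a).clog hx'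
    convert h1 using 1
    field_simp
  refine ⟨fun x => Complex.log (f x * a), ⟨V, hVo.mem_nhds htV, hVo, fun x hx =>
    (hd x hx).2.differentiableAt.differentiableWithinAt, hd⟩, Real.log ‖a‖, fun x hx => ?_⟩
  rw [lgn, Complex.log_re, norm_mul, Real.log_mul (norm_ne_zero_iff.2 hx) (norm_ne_zero_iff.2 ha0)]
  congr 2
  ring

theorem lgn_smooth {c : ℝ} {f : ℂ → ℂ} (hf : Differentiable ℂ f) :
    SmS {t | f t ≠ 0} (lgn c f) := by
  intro t ht
  obtain ⟨g, ⟨V, hV, hVo, hg, hg'⟩, c₀, hc₀⟩ := lgn_loc (c := c) hf ht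
  have h1 : SmS V g := SmS.of_holo hVo hg
  have h2 : ContDiffAt ℝ ∞ (fun x => ((c * ((g x).re - c₀) : ℝ) : ℂ)) t := by
    have h3 : ContDiffAt ℝ ∞ g t := (h1 t (mem_of_mem_nhds hV)).contDiffAt hV
    have h4 : ContDiffAt ℝ ∞ (fun x => c * ((g x).re - c₀)) t :=
      contDiffAt_const.mul ((Complex.reCLM.contDiff.contDiffAt.comp t h3).sub contDiffAt_const)
    exact Complex.ofRealCLM.contDiff.contDiffAt.comp t h4
  refine (h2.congr_of_eventuallyEq ?_).contDiffWithinAt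
  filter_upwards [hV] with x hx
  exact hc₀ x (hg' x hx).1

theorem lgn_dz {c : ℝ} {f : ℂ → ℂ} (hf : Differentiable ℂ f) {t : ℂ} (ht : f t ≠ 0) :
    SP38.dz (lgn c f) t = c / 2 * (deriv f t / f t) := by
  obtain ⟨g, ⟨V, hV, hVo, hg, hg'⟩, c₀, hc₀⟩ := lgn_loc (c := c) hf ht
  have h1 : lgn c f =ᶠ[𝓝 t] fun x => ((c * ((g x).re - c₀) : ℝ) : ℂ) := by
    filter_upwards [hV] with x hx
    exact hc₀ x (hg' x hx).1
  rw [dz_congr h1]
  set w : ℂ := deriv f t / f t with hw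
  have h2 : HasDerivAt g w t := (hg' t (mem_of_mem_nhds hV)).2
  have h3 : HasFDerivAt (𝕜 := ℝ) g ((ContinuousLinearMap.toSpanSingleton ℂ w).restrictScalars ℝ)
      t := h2.hasFDerivAt.restrictScalars ℝ
  have h4 := Complex.ofRealCLM.hasFDerivAt.comp t
    (((Complex.reCLM.hasFDerivAt.comp t h3).sub_const c₀).const_mul c)
  have h5 : fderiv ℝ (fun x => ((c * ((g x).re - c₀) : ℝ) : ℂ)) t = _ := h4.fderiv
  rw [SP38.dz, h5]
  apply Complex.ext
  · simp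
    ring
  · simp
    ring

theorem lgn_harm {c : ℝ} {f : ℂ → ℂ} (hf : Differentiable ℂ f) {t : ℂ} (ht : f t ≠ 0) :
    rho (fun z => SP38.dz (lgn c f) z / 2) t = 0 := by
  have hV : {t | f t ≠ 0} ∈ 𝓝 t := (isOpen_ne.preimage hf.continuous).mem_nhds ht
  have h1 : (fun z => SP38.dz (lgn c f) z / 2) =ᶠ[𝓝 t]
      fun z => c / 2 * (deriv f z / f z) / 2 := by
    filter_upwards [hV] with x hx
    rw [lgn_dz hf hx]
  rw [rho, dzb_congr h1, dzb_of_holo]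
  · simp
  · have h2 : DifferentiableAt ℂ (deriv f) t :=
      (hf.contDiff (n := 2)).differentiable_deriv_two.differentiableAt
    exact ((h2.div (hf t) ht).const_mul _).div_const 2

end PU19
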