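import Pool.Agent.LibUS38.Cyl
import Pool.Agent.LibUS38.CylM
import Pool.Agent.LibUS38.Disc
import Pool.Agent.LibUS38.WirtC2

/-! The flux at an end. -/

open Matrix Complex MeasureTheory Filter Topology
open UpperHalfPlane hiding I
open scoped ContDiff

namespace PU19

open SP38 US38

variable {J G : ℂ → ℂ} {Θ : ℂ → ℝ} {Y₀ Y₁ Y₂ η E : ℝ}

theorem mem_strip {x y : ℝ} (hy : Y₀ < y) : ((x : ℂ) + y * I) ∈ Hc Y₀ := by
  show Y₀ < ((x : ℂ) + y * I).im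
  simpa using hy

theorem strip_cont {f : ℂ → ℝ} (hf : ContinuousOn f (Hc Y₀)) {y : ℝ} (hy : Y₀ < y) :
    Continuous fun x : ℝ => f (x + y * I) :=
  hf.comp_continuous (f := fun x : ℝ => ((x : ℂ) + y * I)) (by fun_prop) fun _ => mem_strip hy

/-- the flux increases towards the end -/
theorem flux_mono (hJ : SmS (Hc Y₀) J) (hp : ∀ ζ ∈ Hc Y₀, J (ζ + (1 : ℝ)) = J ζ)
    (hρ : ∀ ζ ∈ Hc Y₀, 0 ≤ rho J ζ) (h01 : Y₀ < Y₁) (h12 : Y₁ ≤ Y₂) :
    flux J 1 Y₁ ≤ flux J 1 Y₂ := by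
  have h1 := flux_sub one_pos hJ hp h01 h12
  have h2 : 0 ≤ ∫ y in Y₁..Y₂, ∫ x in (0 : ℝ)..1, rho J (x + y * I) := by
    refine intervalIntegral.integral_nonneg h12 fun y hy => ?_
    refine intervalIntegral.integral_nonneg zero_le_one fun x _ => ?_
    exact hρ _ (mem_strip (h01.trans_le hy.1))
  linarith

theorem real_fderiv (hG : SmS (Hc Y₀) G) (him : ∀ ζ ∈ Hc Y₀, (G ζ).im = 0) {ζ : ℂ}
    (hζ : ζ ∈ Hc Y₀) :
    fderiv ℝ (fun z => (G z).re) ζ I = 4 * (I * (SP38.dz G ζ / 2)).re := by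
  have hΩ := isOpen_Hc Y₀
  have hd : DifferentiableAt ℝ G ζ := SmS.differentiableAt hΩ hG hζ
  have h1 : HasFDerivAt (fun z => (G z).re) (Complex.reCLM.comp (fderiv ℝ G ζ)) ζ :=
    Complex.reCLM.hasFDerivAt.comp _ hd.hasFDerivAt
  have h2 : HasFDerivAt (fun z => (G z).im) (Complex.imCLM.comp (fderiv ℝ G ζ)) ζ :=
    Complex.imCLM.hasFDerivAt.comp _ hd.hasFDerivAt
  have h3 : HasFDerivAt (fun z => (G z).im) (0 : ℂ →L[ℝ] ℝ) ζ := by
    refine (hasFDerivAt_const (0 : ℝ) ζ).congr_of_eventuallyEq ?_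
    filter_upwards [hΩ.mem_nhds hζ] with z hz
    exact him z hz
  have h4 := h2.unique h3
  have h5 : (fderiv ℝ G ζ 1).im = 0 := by
    have := congrArg (fun L : ℂ →L[ℝ] ℝ => L 1) h4
    simpa using this
  rw [h1.fderiv]
  simp only [ContinuousLinearMap.comp_apply, Complex.reCLM_apply, SP38.dz]
  simp only [Complex.mul_re, Complex.div_re, Complex.div_im, Complex.sub_re, Complex.sub_im,
    Complex.mul_im, Complex.I_re, Complex.I_im, Complex.re_ofNat, Complex.im_ofNat, h5]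
  norm_num [Complex.normSq]
  ring

theorem end_lemma (hJ : SmS (Hc Y₀) J) (hp : ∀ ζ ∈ Hc Y₀, J (ζ + (1 : ℝ)) = J ζ)
    (hρ : ∀ ζ ∈ Hc Y₀, 0 ≤ rho J ζ) (hG : SmS (Hc Y₀) G) (him : ∀ ζ ∈ Hc Y₀, (G ζ).im = 0)
    (hΘ : ContinuousOn Θ (Hc Y₀)) (hJG : ∀ ζ ∈ Hc Y₀, ‖J ζ - SP38.dz G ζ / 2‖ ≤ Θ ζ)
    (h01 : Y₀ < Y₁) (h12 : Y₁ ≤ Y₂) (hη : 0 < η)
    (hE : ∫ y in Y₁..Y₂, ∫ x in (0 : ℝ)..1, Θ (x + y * I) ^ 2 ≤ E) :
    4 * (Y₂ - Y₁) * (flux J 1 Y₁ - η) ≤ (∫ x in (0 : ℝ)..1, (G (x + Y₂ * I)).re) -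
      (∫ x in (0 : ℝ)..1, (G (x + Y₁ * I)).re) + E / η := by
  have hΩ := isOpen_Hc Y₀
  have hGre : ContDiffOn ℝ 1 (fun z => (G z).re) (Hc Y₀) :=
    Complex.reCLM.contDiff.comp_contDiffOn (ContDiffOn.of_le hG (by simp))
  have hJc : ContinuousOn J (Hc Y₀) := hJ.continuousOn
  have hdz : ContinuousOn (SP38.dz G) (Hc Y₀) := (SmS.dz hΩ hG).continuousOn
  have hc1 : ContinuousOn (fun z => (I * (SP38.dz G z / 2)).re) (Hc Y₀) :=
    Complex.continuous_re.comp_continuousOn (continuousOn_const.mul (hdz.div_const 2))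
  have hc2 : ContinuousOn (fun z => (I * J z).re) (Hc Y₀) :=
    Complex.continuous_re.comp_continuousOn (continuousOn_const.mul hJc)
  have hΘ2 : ContinuousOn (fun z => Θ z ^ 2) (Hc Y₀) := hΘ.pow 2
  have hder : ∀ y ∈ Set.uIcc Y₁ Y₂, HasDerivAt (fun y : ℝ => ∫ x in (0 : ℝ)..1,
      (G (x + y * I)).re) (4 * ∫ x in (0 : ℝ)..1, (I * (SP38.dz G (x + y * I) / 2)).re) y := by
    intro y hy
    rw [Set.uIcc_of_le h12] at hy
    have hy' : Y₀ < y := h01.trans_le hy.1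
    have h1 := cyl_deriv hGre hy' 1
    rw [← intervalIntegral.integral_const_mul]
    have h2 : ∫ x in (0 : ℝ)..1, fderiv ℝ (fun z => (G z).re) (x + y * I) I =
        ∫ x in (0 : ℝ)..1, 4 * (I * (SP38.dz G (x + y * I) / 2)).re :=
      intervalIntegral.integral_congr fun x _ => real_fderiv hG him (mem_strip hy')
    rw [← h2]
    exact h1
  have hci : ContinuousOn (fun y : ℝ => 4 * ∫ x in (0 : ℝ)..1,
      (I * (SP38.dz G (x + y * I) / 2)).re) (Set.Icc Y₁ Y₂) :=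
    continuousOn_const.mul ((cyl_continuous hc1 h01 1).mono fun y hy => hy.1)
  have hM := intervalIntegral.integral_eq_sub_of_hasDerivAt hder
    (by apply ContinuousOn.intervalIntegrable; rwa [Set.uIcc_of_le h12])
  rw [← hM]
  -- the lower bound of the derivative
  have hlow : ∀ y ∈ Set.Icc Y₁ Y₂, 4 * (flux J 1 Y₁ - η) -
      (1 / η) * (∫ x in (0 : ℝ)..1, Θ (x + y * I) ^ 2) ≤
      4 * ∫ x in (0 : ℝ)..1, (I * (SP38.dz G (x + y * I) / 2)).re := by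
    intro y hy
    have hy' : Y₀ < y := h01.trans_le hy.1
    have h1 := flux_mono hJ hp hρ h01 hy.1
    have h2 : flux J 1 y - (η + (1 / (4 * η)) * ∫ x in (0 : ℝ)..1, Θ (x + y * I) ^ 2) ≤
        ∫ x in (0 : ℝ)..1, (I * (SP38.dz G (x + y * I) / 2)).re := by
      have h3 : flux J 1 y - (η + (1 / (4 * η)) * ∫ x in (0 : ℝ)..1, Θ (x + y * I) ^ 2) =
          ∫ x in (0 : ℝ)..1, ((I * J (x + y * I)).re -
            (η + (1 / (4 * η)) * Θ (x + y * I) ^ 2)) := by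
        have i1 : IntervalIntegrable (fun x : ℝ => (I * J (x + y * I)).re) volume 0 1 :=
          (strip_cont hc2 hy').intervalIntegrable _ _
        have i2 : IntervalIntegrable (fun x : ℝ => (1 / (4 * η)) * Θ (x + y * I) ^ 2) volume
            0 1 := (continuous_const.mul (strip_cont hΘ2 hy')).intervalIntegrable _ _
        have i3 : IntervalIntegrable (fun _ : ℝ => η) volume 0 1 := intervalIntegrable_const
        rw [intervalIntegral.integral_sub i1 (i3.add i2), intervalIntegral.integral_add i3 i2,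
          intervalIntegral.integral_const_mul, intervalIntegral.integral_const]
        simp [flux]
      rw [h3]
      refine intervalIntegral.integral_mono_on zero_le_one
        (((strip_cont hc2 hy').sub (continuous_const.add (continuous_const.mul
          (strip_cont hΘ2 hy')))).intervalIntegrable _ _)
        ((strip_cont hc1 hy').intervalIntegrable _ _) fun x _ => ?_
      have h4 := hJG _ (mem_strip (x := x) hy')
      set ζ : ℂ := x + y * I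
      have h5 : (I * J ζ).re - (I * (SP38.dz G ζ / 2)).re ≤ Θ ζ := by
        rw [← Complex.sub_re, ← mul_sub]
        refine (Complex.re_le_norm _).trans ?_
        rwa [norm_mul, Complex.norm_I, one_mul]
      have h6 : Θ ζ ≤ η + (1 / (4 * η)) * Θ ζ ^ 2 := by
        have h7 : 0 ≤ (1 / (4 * η)) * (Θ ζ - 2 * η) ^ 2 := by positivity
        have h8 : (1 / (4 * η)) * (Θ ζ - 2 * η) ^ 2 =
            η + (1 / (4 * η)) * Θ ζ ^ 2 - Θ ζ := by
          field_simp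
          ring
        linarith
      linarith
    have h9 : (1 / η) * (∫ x in (0 : ℝ)..1, Θ (x + y * I) ^ 2) =
        4 * ((1 / (4 * η)) * ∫ x in (0 : ℝ)..1, Θ (x + y * I) ^ 2) := by
      field_simp
    rw [h9]
    linarith
  have hΘc : ContinuousOn (fun y : ℝ => ∫ x in (0 : ℝ)..1, Θ (x + y * I) ^ 2) (Set.Icc Y₁ Y₂) :=
    (cyl_continuous hΘ2 h01 1).mono fun y hy => hy.1
  have hΘi : IntervalIntegrable (fun y : ℝ => ∫ x in (0 : ℝ)..1, Θ (x + y * I) ^ 2) volume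
      Y₁ Y₂ := by
    apply ContinuousOn.intervalIntegrable
    rwa [Set.uIcc_of_le h12]
  have hint := intervalIntegral.integral_mono_on h12
    (intervalIntegrable_const.sub (hΘi.const_mul (1 / η)))
    (by apply ContinuousOn.intervalIntegrable; rwa [Set.uIcc_of_le h12]) hlow
  rw [intervalIntegral.integral_sub intervalIntegrable_const (hΘi.const_mul (1 / η)),
    intervalIntegral.integral_const, smul_eq_mul, intervalIntegral.integral_const_mul] at hint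
  have h10 : (1 / η) * (∫ y in Y₁..Y₂, ∫ x in (0 : ℝ)..1, Θ (x + y * I) ^ 2) ≤ (1 / η) * E :=
    mul_le_mul_of_nonneg_left hE (by positivity)
  have h11 : (1 / η) * E = E / η := by ring
  rw [h11] at h10
  linarith

/-- the flux is at most the growth of the mean -/
theorem end_growth (hJ : SmS (Hc Y₀) J) (hp : ∀ ζ ∈ Hc Y₀, J (ζ + (1 : ℝ)) = J ζ)
    (hρ : ∀ ζ ∈ Hc Y₀, 0 ≤ rho J ζ) (hG : SmS (Hc Y₀) G) (him : ∀ ζ ∈ Hc Y₀, (G ζ).im = 0)
    (hΘ : ContinuousOn Θ (Hc Y₀)) (hJG : ∀ ζ ∈ Hc Y₀, ‖J ζ - SP38.dz G ζ / 2‖ ≤ Θ ζ)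
    (h01 : Y₀ < Y₁)
    (hE : ∃ E : ℝ, ∀ Y₂ : ℝ, Y₁ ≤ Y₂ → ∫ y in Y₁..Y₂, ∫ x in (0 : ℝ)..1, Θ (x + y * I) ^ 2 ≤ E)
    {α : ℝ} (hg : ∃ β Y' : ℝ, ∀ Y₂ : ℝ, Y' ≤ Y₂ → (∫ x in (0 : ℝ)..1, (G (x + Y₂ * I)).re) ≤
      α * Y₂ + β) : flux J 1 Y₁ ≤ α / 4 := by
  obtain ⟨E, hE⟩ := hE
  obtain ⟨β, Y', hg⟩ := hg
  refine le_of_forall_pos_le_add fun η hη => ?_
  by_contra hcon
  push Not at hcon
  set c : ℝ := flux J 1 Y₁ - η / 2 - α / 4 with hc
  have hc0 : 0 < c := by rw [hc]; linarith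
  set M₁ : ℝ := ∫ x in (0 : ℝ)..1, (G (x + Y₁ * I)).re with hM₁
  set D : ℝ := |α * Y₁ + β - M₁ + E / (η / 2)| with hD
  set Y₂ : ℝ := max (max Y' Y₁) (Y₁ + (D + 1) / (4 * c)) with hY₂
  have h12 : Y₁ ≤ Y₂ := (le_max_right _ _).trans (le_max_left _ _)
  have hY' : Y' ≤ Y₂ := (le_max_left _ _).trans (le_max_left _ _)
  have h3 : (D + 1) / (4 * c) ≤ Y₂ - Y₁ := by
    have : Y₁ + (D + 1) / (4 * c) ≤ Y₂ := le_max_right _ _
    linarith
  have h4 := end_lemma hJ hp hρ hG him hΘ hJG h01 h12 (half_pos hη) (hE Y₂ h12)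
  have h5 := hg Y₂ hY'
  rw [div_le_iff₀ (by positivity)] at h3
  have h6 : 4 * (Y₂ - Y₁) * (flux J 1 Y₁ - η / 2) =
      (Y₂ - Y₁) * (4 * c) + α * (Y₂ - Y₁) := by
    rw [hc]
    ring
  have h7 : α * Y₁ + β - M₁ + E / (η / 2) ≤ D := le_abs_self _
  rw [h6] at h4
  have h8 : (Y₂ - Y₁) * (4 * c) ≤ D := by linarith
  linarith

/-- finite energy at an end -/
theorem end_energy {U : ℂ → ℂ} (hU : SmS (Hc Y₀) U) (him : ∀ ζ ∈ Hc Y₀, (U ζ).im = 0)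
    (hp : ∀ ζ ∈ Hc Y₀, U (ζ + (1 : ℝ)) = U ζ) (hΘ : ContinuousOn Θ (Hc Y₀))
    (hUΘ : ∀ ζ ∈ Hc Y₀, Θ ζ ^ 2 ≤ rho (fun z => SP38.dz U z / 2) ζ) (h01 : Y₀ < Y₁)
    {α : ℝ} (hg : ∃ β Y' : ℝ, ∀ Y₂ : ℝ, Y' ≤ Y₂ → (∫ x in (0 : ℝ)..1, (U (x + Y₂ * I)).re) ≤
      α * Y₂ + β) :
    ∃ E : ℝ, ∀ Y₂ : ℝ, Y₁ ≤ Y₂ → ∫ y in Y₁..Y₂, ∫ x in (0 : ℝ)..1, Θ (x + y * I) ^ 2 ≤ E := by
  have hΩ := isOpen_Hc Y₀
  set J : ℂ → ℂ := fun z => SP38.dz U z / 2 with hJdef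
  have hJ : SmS (Hc Y₀) J := (SmS.dz hΩ hU).div_const 2
  have hpJ : ∀ ζ ∈ Hc Y₀, J (ζ + (1 : ℝ)) = J ζ := by
    intro ζ hζ
    have h2 : SP38.dz U (ζ + (1 : ℝ)) = SP38.dz (fun z => U (z + (1 : ℝ))) ζ := by
      rw [SP38.dz, SP38.dz, fderiv_comp_add_right]
    show SP38.dz U (ζ + (1 : ℝ)) / 2 = SP38.dz U ζ / 2
    rw [h2]
    congr 1
    apply dz_congr
    filter_upwards [hΩ.mem_nhds hζ] with z hz
    exact hp z hz
  have hρ : ∀ ζ ∈ Hc Y₀, 0 ≤ rho J ζ := fun ζ hζ => (sq_nonneg _).trans (hUΘ ζ hζ)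
  have hρc : ContinuousOn (rho J) (Hc Y₀) :=
    continuousOn_const.mul (Complex.continuous_re.comp_continuousOn
      (SmS.dzb hΩ hJ).continuousOn)
  have hbd : ∀ Y₂, Y₁ ≤ Y₂ → flux J 1 Y₂ ≤ α / 4 := fun Y₂ h12 =>
    end_growth (Θ := fun _ => 0) hJ hpJ hρ hU him continuousOn_const
      (fun ζ _ => by simp [hJdef]) (h01.trans_le h12) ⟨0, fun Y₃ _ => by simp⟩ hg
  refine ⟨α / 4 - flux J 1 Y₁, fun Y₂ h12 => ?_⟩
  have h1 := flux_sub one_pos hJ hpJ h01 h12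
  have h2 := hbd Y₂ h12
  have hΘ2 : ContinuousOn (fun z => Θ z ^ 2) (Hc Y₀) := hΘ.pow 2
  have h3 : ∫ y in Y₁..Y₂, ∫ x in (0 : ℝ)..1, Θ (x + y * I) ^ 2 ≤
      ∫ y in Y₁..Y₂, ∫ x in (0 : ℝ)..1, rho J (x + y * I) := by
    refine intervalIntegral.integral_mono_on h12 ?_ ?_ fun y hy => ?_
    · apply ContinuousOn.intervalIntegrable
      rw [Set.uIcc_of_le h12]
      exact (cyl_continuous hΘ2 h01 1).mono fun y hy => hy.1
    · apply ContinuousOn.intervalIntegrable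
      rw [Set.uIcc_of_le h12]
      exact (cyl_continuous hρc h01 1).mono fun y hy => hy.1
    · have hy' : Y₀ < y := h01.trans_le hy.1
      exact intervalIntegral.integral_mono_on zero_le_one
        ((strip_cont hΘ2 hy').intervalIntegrable _ _)
        ((strip_cont hρc hy').intervalIntegrable _ _) fun x _ => hUΘ _ (mem_strip hy')
  linarith

end PU19
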