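import Pool.Agent.LibPU19.Main

/-! Families of potentials on the punctured plane. -/

open Matrix Complex MeasureTheory Filter Topology
open UpperHalfPlane hiding I
open scoped ContDiff

namespace PU19

open SP38 US38

variable {ι : Type} [Fintype ι]

/-- a finite family of potentials `N`, `T` with energy densities `h` and potentials `u` of the
energy, given locally on `Ω` and permuted by the continuation -/
structure PFam (Ω : Set ℂ) (r : ℂ → ℝ) (N T u : ℂ → ι → ℂ → ℂ) (h : ℂ → ι → ℂ → ℝ) : Prop where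
  rpos : ∀ t ∈ Ω, 0 < r t
  sub : ∀ t ∈ Ω, Metric.ball t (r t) ⊆ Ω
  smN : ∀ t ∈ Ω, ∀ i, SmS (Metric.ball t (r t)) (N t i)
  smT : ∀ t ∈ Ω, ∀ i, SmS (Metric.ball t (r t)) (T t i)
  smu : ∀ t ∈ Ω, ∀ i, SmS (Metric.ball t (r t)) (u t i)
  imN : ∀ t ∈ Ω, ∀ i, ∀ x ∈ Metric.ball t (r t), (N t i x).im = 0
  nnN : ∀ t ∈ Ω, ∀ i, ∀ x ∈ Metric.ball t (r t), 0 ≤ (N t i x).re
  imu : ∀ t ∈ Ω, ∀ i, ∀ x ∈ Metric.ball t (r t), (u t i x).im = 0
  hc : ∀ t ∈ Ω, ∀ i, ContinuousOn (h t i) (Metric.ball t (r t))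
  h0 : ∀ t ∈ Ω, ∀ i, ∀ x ∈ Metric.ball t (r t), 0 ≤ h t i x
  bdT : ∀ t ∈ Ω, ∀ i, ∀ x ∈ Metric.ball t (r t), ‖T t i x‖ ≤ √(h t i x) * (N t i x).re
  ineq : ∀ t ∈ Ω, ∀ i, ∀ x ∈ Metric.ball t (r t), ∀ ε : ℝ, 0 < ε →
    -(2 * h t i x) ≤ rho (jj (N t i) (T t i) ε) x
  uh : ∀ t ∈ Ω, ∀ i, ∀ x ∈ Metric.ball t (r t),
    h t i x ≤ rho (fun z => SP38.dz (u t i) z / 2) x
  comp : ∀ t ∈ Ω, ∀ t' ∈ Metric.ball t (r t), ∃ π : Equiv.Perm ι, ∀ i,
    N t' (π i) =ᶠ[𝓝 t'] N t i ∧ T t' (π i) =ᶠ[𝓝 t'] T t i ∧ u t' (π i) =ᶠ[𝓝 t'] u t i ∧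
      h t' (π i) =ᶠ[𝓝 t'] h t i

variable {Ω : Set ℂ} {r : ℂ → ℝ} {N T u : ℂ → ι → ℂ → ℂ} {h : ℂ → ι → ℂ → ℝ} {t : ℂ}

/-- the potential of the energy -/
noncomputable def UU (u : ℂ → ι → ℂ → ℂ) (L : ℂ → ℂ) (t : ℂ) : ℂ := ∑ i, u t i t + L t

/-- the sum of the logarithms -/
noncomputable def GG (N u : ℂ → ι → ℂ → ℂ) (L : ℂ → ℂ) (ε : ℝ) (t : ℂ) : ℂ :=
  ∑ i, ((Real.log ((N t i t).re + ε) : ℝ) : ℂ) + 3 * UU u L t

/-- the form -/
noncomputable def JJ (N T u : ℂ → ι → ℂ → ℂ) (L : ℂ → ℂ) (ε : ℝ) (t : ℂ) : ℂ :=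
  ∑ i, jj (N t i) (T t i) ε t + 3 * (SP38.dz (UU u L) t / 2)

/-- the error -/
noncomputable def TT (h : ℂ → ι → ℂ → ℝ) (t : ℂ) : ℝ := 2 * ∑ i, √(h t i t)

theorem jj_germ {N N' T T' : ℂ → ℂ} {x : ℂ} {ε : ℝ} (hN : N =ᶠ[𝓝 x] N') (hT : T x = T' x) :
    jj N T ε x = jj N' T' ε x := by
  rw [jj, jj, dz_congr hN, hT, hN.self_of_nhds]

/-- a sum over the family is given by the local data -/
theorem PFam.sum_eq (hF : PFam Ω r N T u h) {E : Type*} [AddCommMonoid E]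
    {f : ℂ → ι → ℂ → E} (hf : ∀ t' i t i', N t' i' =ᶠ[𝓝 t'] N t i → T t' i' =ᶠ[𝓝 t'] T t i →
      u t' i' =ᶠ[𝓝 t'] u t i → h t' i' =ᶠ[𝓝 t'] h t i → f t' i' t' = f t i t')
    (ht : t ∈ Ω) {x : ℂ} (hx : x ∈ Metric.ball t (r t)) :
    ∑ i, f x i x = ∑ i, f t i x := by
  obtain ⟨π, hπ⟩ := hF.comp t ht x hx
  rw [← Equiv.sum_comp π fun i => f x i x]
  exact Finset.sum_congr rfl fun i _ => hf x i t (π i) (hπ i).1 (hπ i).2.1 (hπ i).2.2.1
    (hπ i).2.2.2

variable {L : ℂ → ℂ}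

theorem PFam.UU_eq (hF : PFam Ω r N T u h) (ht : t ∈ Ω) {x : ℂ}
    (hx : x ∈ Metric.ball t (r t)) : UU u L x = ∑ i, u t i x + L x := by
  rw [UU, hF.sum_eq (f := fun t i x => u t i x) (fun t' i t i' _ _ h3 _ => h3.self_of_nhds) ht hx]

theorem PFam.GG_eq (hF : PFam Ω r N T u h) (ht : t ∈ Ω) {x : ℂ}
    (hx : x ∈ Metric.ball t (r t)) {ε : ℝ} : GG N u L ε x =
      ∑ i, ((Real.log ((N t i x).re + ε) : ℝ) : ℂ) + 3 * UU u L x := by
  rw [GG, hF.sum_eq (f := fun t i x => ((Real.log ((N t i x).re + ε) : ℝ) : ℂ))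
    (fun t' i t i' h1 _ _ _ => by rw [h1.self_of_nhds]) ht hx]

theorem PFam.JJ_eq (hF : PFam Ω r N T u h) (ht : t ∈ Ω) {x : ℂ}
    (hx : x ∈ Metric.ball t (r t)) {ε : ℝ} : JJ N T u L ε x =
      ∑ i, jj (N t i) (T t i) ε x + 3 * (SP38.dz (UU u L) x / 2) := by
  rw [JJ, hF.sum_eq (f := fun t i x => jj (N t i) (T t i) ε x)
    (fun t' i t i' h1 h2 _ _ => jj_germ h1 h2.self_of_nhds) ht hx]

theorem PFam.TT_eq (hF : PFam Ω r N T u h) (ht : t ∈ Ω) {x : ℂ}
    (hx : x ∈ Metric.ball t (r t)) : TT h x = 2 * ∑ i, √(h t i x) := by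
  rw [TT, hF.sum_eq (f := fun t i x => √(h t i x))
    (fun t' i t i' _ _ _ h4 => by rw [h4.self_of_nhds]) ht hx]

theorem PFam.smUU (hF : PFam Ω r N T u h) (hL : SmS Ω L) (hΩ : IsOpen Ω) :
    SmS Ω (UU u L) := by
  intro t ht
  have hb : Metric.ball t (r t) ∈ 𝓝 t := Metric.ball_mem_nhds t (hF.rpos t ht)
  have h1 : ContDiffAt ℝ ∞ (fun x => ∑ i, u t i x + L x) t := by
    refine ContDiffAt.add (ContDiffAt.sum fun i _ => ?_) ((hL t ht).contDiffAt (hΩ.mem_nhds ht))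
    exact (hF.smu t ht i t (Metric.mem_ball_self (hF.rpos t ht))).contDiffAt hb
  refine (h1.congr_of_eventuallyEq ?_).contDiffWithinAt
  filter_upwards [hb] with x hx
  exact hF.UU_eq ht hx

theorem smS_log {N : ℂ → ℂ} {V : Set ℂ} (hN : SmS V N)
    (hnn : ∀ z ∈ V, 0 ≤ (N z).re) {ε : ℝ} (hε : 0 < ε) :
    SmS V (fun z => ((Real.log ((N z).re + ε) : ℝ) : ℂ)) := by
  have h1 : ContDiffOn ℝ ∞ (fun z => (N z).re + ε) V :=
    (Complex.reCLM.contDiff.comp_contDiffOn hN).add contDiffOn_const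
  have h2 : ContDiffOn ℝ ∞ (fun z => Real.log ((N z).re + ε)) V :=
    h1.log fun z hz => (add_pos_of_nonneg_of_pos (hnn z hz) hε).ne'
  exact Complex.ofRealCLM.contDiff.comp_contDiffOn h2

theorem dz_log {N : ℂ → ℂ} {V : Set ℂ} (hV : IsOpen V) (hN : SmS V N)
    (him : ∀ z ∈ V, (N z).im = 0) (hnn : ∀ z ∈ V, 0 ≤ (N z).re) {ε : ℝ} (hε : 0 < ε) {z : ℂ}
    (hz : z ∈ V) :
    SP38.dz (fun z => ((Real.log ((N z).re + ε) : ℝ) : ℂ)) z = SP38.dz N z / (N z + ε) := by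
  have hd : DifferentiableAt ℝ N z := SmS.differentiableAt hV hN hz
  have hpos : 0 < (N z).re + ε := add_pos_of_nonneg_of_pos (hnn z hz) hε
  have h1 : HasFDerivAt (fun z => (N z).re + ε) (Complex.reCLM.comp (fderiv ℝ N z)) z :=
    (Complex.reCLM.hasFDerivAt.comp z hd.hasFDerivAt).add_const ε
  have h2 := (Complex.ofRealCLM.hasFDerivAt (x := Real.log ((N z).re + ε))).comp z
    (h1.log hpos.ne')
  have h3 : HasFDerivAt (fun z => (N z).im) (Complex.imCLM.comp (fderiv ℝ N z)) z :=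
    Complex.imCLM.hasFDerivAt.comp _ hd.hasFDerivAt
  have h4 : HasFDerivAt (fun z => (N z).im) (0 : ℂ →L[ℝ] ℝ) z := by
    refine (hasFDerivAt_const (0 : ℝ) z).congr_of_eventuallyEq ?_
    filter_upwards [hV.mem_nhds hz] with w hw
    exact him w hw
  have h5 := h3.unique h4
  have h6 : ∀ v : ℂ, ((fderiv ℝ N z v).re : ℂ) = fderiv ℝ N z v := by
    intro v
    have h7 := congrArg (fun M : ℂ →L[ℝ] ℝ => M v) h5
    have h8 : (fderiv ℝ N z v).im = 0 := by simpa using h7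
    apply Complex.ext
    · simp
    · simp [h8]
  have h7 : (((N z).re + ε : ℝ) : ℂ) = N z + ε := by
    apply Complex.ext
    · simp
    · simp [him z hz]
  have h8 : ∀ v : ℂ, fderiv ℝ (fun z => ((Real.log ((N z).re + ε) : ℝ) : ℂ)) z v =
      fderiv ℝ N z v / (N z + ε) := by
    intro v
    have h9 : fderiv ℝ (fun z => ((Real.log ((N z).re + ε) : ℝ) : ℂ)) z = _ := h2.fderiv
    rw [h9, ← h7]
    simp only [ContinuousLinearMap.comp_apply, ContinuousLinearMap.smul_apply, smul_eq_mul,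
      Complex.reCLM_apply, Complex.ofRealCLM_apply]
    rw [Complex.ofReal_mul, h6, Complex.ofReal_inv]
    ring
  rw [SP38.dz, h8, h8, SP38.dz]
  ring

theorem PFam.smGG (hF : PFam Ω r N T u h) (hL : SmS Ω L) (hΩ : IsOpen Ω) {ε : ℝ} (hε : 0 < ε) :
    SmS Ω (GG N u L ε) := by
  intro t ht
  have hb : Metric.ball t (r t) ∈ 𝓝 t := Metric.ball_mem_nhds t (hF.rpos t ht)
  have ht' := Metric.mem_ball_self (hF.rpos t ht) (x := t)
  have h1 : ContDiffAt ℝ ∞ (fun x => ∑ i, ((Real.log ((N t i x).re + ε) : ℝ) : ℂ) +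
      3 * UU u L x) t := by
    refine ContDiffAt.add (ContDiffAt.sum fun i _ => ?_)
      (contDiffAt_const.mul ((hF.smUU hL hΩ t ht).contDiffAt (hΩ.mem_nhds ht)))
    exact (smS_log (hF.smN t ht i) (hF.nnN t ht i) hε t ht').contDiffAt hb
  refine (h1.congr_of_eventuallyEq ?_).contDiffWithinAt
  filter_upwards [hb] with x hx
  exact hF.GG_eq ht hx

theorem PFam.smjj (hF : PFam Ω r N T u h) {ε : ℝ} (hε : 0 < ε) (ht : t ∈ Ω) (i : ι) :
    SmS (Metric.ball t (r t)) (jj (N t i) (T t i) ε) :=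
  SmS_jj Metric.isOpen_ball (hF.smN t ht i) (hF.smT t ht i) (hF.imN t ht i) (hF.nnN t ht i) hε

theorem PFam.smJJ (hF : PFam Ω r N T u h) (hL : SmS Ω L) (hΩ : IsOpen Ω) {ε : ℝ} (hε : 0 < ε) :
    SmS Ω (JJ N T u L ε) := by
  intro t ht
  have hb : Metric.ball t (r t) ∈ 𝓝 t := Metric.ball_mem_nhds t (hF.rpos t ht)
  have ht' := Metric.mem_ball_self (hF.rpos t ht) (x := t)
  have h1 : ContDiffAt ℝ ∞ (fun x => ∑ i, jj (N t i) (T t i) ε x +
      3 * (SP38.dz (UU u L) x / 2)) t := by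
    refine ContDiffAt.add (ContDiffAt.sum fun i _ => ?_) (contDiffAt_const.mul ?_)
    · exact (hF.smjj hε ht i t ht').contDiffAt hb
    · exact ((SmS.dz hΩ (hF.smUU hL hΩ) t ht).contDiffAt (hΩ.mem_nhds ht)).div_const 2
  refine (h1.congr_of_eventuallyEq ?_).contDiffWithinAt
  filter_upwards [hb] with x hx
  exact hF.JJ_eq ht hx

/-- the divergence of the energy potential -/
theorem PFam.rhoUU (hF : PFam Ω r N T u h) (hL : SmS Ω L) (hΩ : IsOpen Ω)
    (hharm : ∀ t ∈ Ω, rho (fun z => SP38.dz L z / 2) t = 0) (ht : t ∈ Ω) :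
    ∑ i, h t i t ≤ rho (fun z => SP38.dz (UU u L) z / 2) t := by
  have hb : Metric.ball t (r t) ∈ 𝓝 t := Metric.ball_mem_nhds t (hF.rpos t ht)
  have ht' := Metric.mem_ball_self (hF.rpos t ht) (x := t)
  have hdi : ∀ i, ∀ x ∈ Metric.ball t (r t), DifferentiableAt ℝ (u t i) x := fun i x hx =>
    SmS.differentiableAt Metric.isOpen_ball (hF.smu t ht i) hx
  have hdL : ∀ x ∈ Ω, DifferentiableAt ℝ L x := fun x hx => SmS.differentiableAt hΩ hL hx
  have hds : ∀ x ∈ Metric.ball t (r t), DifferentiableAt ℝ (fun z => ∑ i, u t i z) x :=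
    fun x hx => DifferentiableAt.fun_sum fun i _ => hdi i x hx
  have h1 : (fun z => SP38.dz (UU u L) z / 2) =ᶠ[𝓝 t]
      fun z => ∑ i, SP38.dz (u t i) z / 2 + SP38.dz L z / 2 := by
    filter_upwards [hb] with x hx
    have h2 : SP38.dz (UU u L) x = SP38.dz (fun z => ∑ i, u t i z + L z) x := by
      apply dz_congr
      filter_upwards [Metric.isOpen_ball.mem_nhds hx] with y hy
      exact hF.UU_eq ht hy
    rw [h2, dz_add (hds x hx) (hdL x (hF.sub t ht hx)),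
      WirtM_dz_sum Finset.univ fun i _ => hdi i x hx, add_div, Finset.sum_div]
  have hsm1 : ∀ i, SmS (Metric.ball t (r t)) (fun z => SP38.dz (u t i) z / 2) := fun i =>
    (SmS.dz Metric.isOpen_ball (hF.smu t ht i)).div_const 2
  have hsm2 : SmS Ω (fun z => SP38.dz L z / 2) := (SmS.dz hΩ hL).div_const 2
  have hd1 : ∀ i, DifferentiableAt ℝ (fun z => SP38.dz (u t i) z / 2) t := fun i =>
    SmS.differentiableAt Metric.isOpen_ball (hsm1 i) ht'
  have h3 : rho (fun z => SP38.dz (UU u L) z / 2) t =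
      ∑ i, rho (fun z => SP38.dz (u t i) z / 2) t + rho (fun z => SP38.dz L z / 2) t := by
    rw [rho, dzb_congr h1, dzb_add (DifferentiableAt.fun_sum fun i _ => hd1 i)
      (SmS.differentiableAt hΩ hsm2 ht), WirtM_dzb_sum Finset.univ fun i _ => hd1 i,
      Complex.add_re, re_sum, mul_add, Finset.mul_sum]
    rfl
  rw [h3, hharm t ht, add_zero]
  exact Finset.sum_le_sum fun i _ => hF.uh t ht i t ht'

theorem PFam.pdt (hF : PFam Ω r N T u h) (hΩ : IsOpen Ω) (hL : SmS Ω L)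
    (himL : ∀ t ∈ Ω, (L t).im = 0)
    (hharm : ∀ t ∈ Ω, rho (fun z => SP38.dz L z / 2) t = 0) {ε : ℝ} (hε : 0 < ε) :
    PDt Ω (JJ N T u L ε) (GG N u L ε) (fun t => (4 * Fintype.card ι : ℝ) * UU u L t)
      (TT h) := by
  have hUs := hF.smUU hL hΩ
  have himU : ∀ t ∈ Ω, (UU u L t).im = 0 := by
    intro t ht
    rw [UU, Complex.add_im, himL t ht, add_zero, im_sum]
    exact Finset.sum_eq_zero fun i _ => hF.imu t ht i t (Metric.mem_ball_self (hF.rpos t ht))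
  have hdU : ∀ t ∈ Ω, DifferentiableAt ℝ (UU u L) t := fun t ht =>
    SmS.differentiableAt hΩ hUs ht
  have hsmU2 : SmS Ω (fun z => SP38.dz (UU u L) z / 2) := (SmS.dz hΩ hUs).div_const 2
  refine ⟨hF.smJJ hL hΩ hε, fun t ht => ?_, hF.smGG hL hΩ hε, fun t ht => ?_,
    contDiffOn_const.mul hUs, fun t ht => ?_, fun t ht => ?_, fun t ht => ?_, fun t ht => ?_⟩
  · -- divergence
    have hb : Metric.ball t (r t) ∈ 𝓝 t := Metric.ball_mem_nhds t (hF.rpos t ht)
    have ht' := Metric.mem_ball_self (hF.rpos t ht) (x := t)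
    have h1 : JJ N T u L ε =ᶠ[𝓝 t] fun z => ∑ i, jj (N t i) (T t i) ε z +
        3 * (SP38.dz (UU u L) z / 2) := by
      filter_upwards [hb] with x hx
      exact hF.JJ_eq ht hx
    have hd1 : ∀ i, DifferentiableAt ℝ (jj (N t i) (T t i) ε) t := fun i =>
      SmS.differentiableAt Metric.isOpen_ball (hF.smjj hε ht i) ht'
    have hd2 := SmS.differentiableAt hΩ hsmU2 ht
    have h2 : US38.rho (JJ N T u L ε) t = ∑ i, US38.rho (jj (N t i) (T t i) ε) t +
        3 * US38.rho (fun z => SP38.dz (UU u L) z / 2) t := by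
      have h3 : SP38.dzb (fun z => 3 * (SP38.dz (UU u L) z / 2)) t =
          3 * SP38.dzb (fun z => SP38.dz (UU u L) z / 2) t := WirtM_dzb_smul 3 hd2
      rw [US38.rho, dzb_congr h1, dzb_add (DifferentiableAt.fun_sum fun i _ => hd1 i)
        (hd2.const_mul 3), WirtM_dzb_sum Finset.univ fun i _ => hd1 i, h3, Complex.add_re,
        re_sum, mul_add, Finset.mul_sum, US38.rho]
      congr 1
      rw [Complex.mul_re]
      simp only [Complex.re_ofNat, Complex.im_ofNat]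
      ring
    rw [h2]
    have h4 : -(2 * ∑ i, h t i t) ≤ ∑ i, US38.rho (jj (N t i) (T t i) ε) t := by
      rw [Finset.mul_sum, ← Finset.sum_neg_distrib]
      exact Finset.sum_le_sum fun i _ => hF.ineq t ht i t ht' ε hε
    have h5 := hF.rhoUU hL hΩ hharm ht
    have h6 : 0 ≤ ∑ i, h t i t := Finset.sum_nonneg fun i _ => hF.h0 t ht i t ht'
    linarith
  · rw [GG, Complex.add_im, Complex.mul_im, himU t ht, im_sum]
    simp
  · rw [Complex.mul_im, himU t ht]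
    simp
  · -- continuity of the error
    have hb : Metric.ball t (r t) ∈ 𝓝 t := Metric.ball_mem_nhds t (hF.rpos t ht)
    have h1 : ContinuousAt (fun x => 2 * ∑ i, √(h t i x)) t := by
      refine continuousAt_const.mul (tendsto_finset_sum _ fun i _ => ?_)
      exact ((hF.hc t ht i).continuousAt hb).sqrt
    refine (h1.congr ?_).continuousWithinAt
    filter_upwards [hb] with x hx
    exact (hF.TT_eq ht hx).symm
  · -- the error
    have hb : Metric.ball t (r t) ∈ 𝓝 t := Metric.ball_mem_nhds t (hF.rpos t ht)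
    have ht' := Metric.mem_ball_self (hF.rpos t ht) (x := t)
    have h1 : SP38.dz (GG N u L ε) t = ∑ i, SP38.dz (N t i) t / (N t i t + ε) +
        3 * SP38.dz (UU u L) t := by
      have h2 : SP38.dz (GG N u L ε) t = SP38.dz (fun x => ∑ i,
          ((Real.log ((N t i x).re + ε) : ℝ) : ℂ) + 3 * UU u L x) t := by
        apply dz_congr
        filter_upwards [hb] with x hx
        exact hF.GG_eq ht hx
      have hd1 : ∀ i, DifferentiableAt ℝ
          (fun x => ((Real.log ((N t i x).re + ε) : ℝ) : ℂ)) t := fun i =>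
        SmS.differentiableAt Metric.isOpen_ball
          (smS_log (hF.smN t ht i) (hF.nnN t ht i) hε) ht'
      have h3 : SP38.dz (fun z => 3 * UU u L z) t = 3 * SP38.dz (UU u L) t :=
        WirtM_dz_smul 3 (hdU t ht)
      rw [h2, dz_add (DifferentiableAt.fun_sum fun i _ => hd1 i) ((hdU t ht).const_mul 3),
        WirtM_dz_sum Finset.univ fun i _ => hd1 i, h3]
      congr 1
      exact Finset.sum_congr rfl fun i _ => dz_log Metric.isOpen_ball (hF.smN t ht i)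
        (hF.imN t ht i) (hF.nnN t ht i) hε ht'
    have h2 : JJ N T u L ε t - SP38.dz (GG N u L ε) t / 2 =
        ∑ i, 2 * T t i t / (N t i t + ε) := by
      rw [JJ, h1]
      have h3 : ∀ i, jj (N t i) (T t i) ε t = SP38.dz (N t i) t / (N t i t + ε) / 2 +
          2 * T t i t / (N t i t + ε) := by
        intro i
        rw [jj, add_div]
        ring
      rw [Finset.sum_congr rfl fun i _ => h3 i, Finset.sum_add_distrib, ← Finset.sum_div]
      ring
    rw [h2, TT, Finset.mul_sum]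
    refine norm_sum_le_of_le _ fun i _ => ?_
    have hn := hF.nnN t ht i t ht'
    have hpos : 0 < (N t i t).re + ε := by linarith
    have h7 : (N t i t + ε : ℂ) = (((N t i t).re + ε : ℝ) : ℂ) := by
      apply Complex.ext
      · simp
      · simp [hF.imN t ht i t ht']
    rw [norm_div, norm_mul, h7, Complex.norm_real, Real.norm_of_nonneg hpos.le,
      div_le_iff₀ hpos]
    have h8 := hF.bdT t ht i t ht'
    have h9 : ‖(2 : ℂ)‖ = 2 := by simp
    rw [h9]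
    have h10 : 0 ≤ √(h t i t) * ε := mul_nonneg (Real.sqrt_nonneg _) hε.le
    nlinarith
  · -- the energy
    have ht' := Metric.mem_ball_self (hF.rpos t ht) (x := t)
    have h1 : TT h t ^ 2 ≤ 4 * Fintype.card ι * ∑ i, h t i t := by
      have h2 : (∑ i, √(h t i t)) ^ 2 ≤ Fintype.card ι * ∑ i, √(h t i t) ^ 2 := by
        have := sq_sum_le_card_mul_sum_sq (s := (Finset.univ : Finset ι))
          (f := fun i => √(h t i t))
        simpa using this
      have h3 : ∑ i, √(h t i t) ^ 2 = ∑ i, h t i t :=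
        Finset.sum_congr rfl fun i _ => Real.sq_sqrt (hF.h0 t ht i t ht')
      rw [h3] at h2
      rw [TT, mul_pow]
      linarith
    have h2 := hF.rhoUU hL hΩ hharm ht
    have h3 : US38.rho (fun z => SP38.dz (fun t => ((4 * Fintype.card ι : ℝ) : ℂ) *
        UU u L t) z / 2) t = (4 * Fintype.card ι) *
        US38.rho (fun z => SP38.dz (UU u L) z / 2) t := by
      have h4 : (fun z => SP38.dz (fun t => ((4 * Fintype.card ι : ℝ) : ℂ) * UU u L t) z / 2)
          =ᶠ[𝓝 t] fun z => ((4 * Fintype.card ι : ℝ) : ℂ) * (SP38.dz (UU u L) z / 2) := by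
        filter_upwards [hΩ.mem_nhds ht] with x hx
        rw [WirtM_dz_smul _ (hdU x hx)]
        ring
      rw [US38.rho, dzb_congr h4, WirtM_dzb_smul _ (SmS.differentiableAt hΩ hsmU2 ht),
        re_ofReal_mul, US38.rho]
      ring
    rw [h3]
    refine h1.trans (mul_le_mul_of_nonneg_left h2 (by positivity))

end PU19
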