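import Pool.Agent.LibPU19.Pull

/-! The count on the punctured plane. -/

open Matrix Complex MeasureTheory Filter Topology
open UpperHalfPlane hiding I
open scoped ContDiff

namespace PU19

open SP38 US38

variable {J G U : ℂ → ℂ} {Θ : ℂ → ℝ} {Y₀ Y₁ Y₂ : ℝ}

theorem exists_sep (B : Finset ℂ) : ∃ ρ : ℝ, 0 < ρ ∧ ρ < 1 ∧
    ∀ b ∈ B, ∀ b' ∈ B, b ≠ b' → 3 * ρ < dist b b' := by
  have h1 : ∀ᶠ ρ : ℝ in 𝓝[>] 0, ∀ b ∈ B, ∀ b' ∈ B, b ≠ b' → 3 * ρ < dist b b' := by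
    refine (Filter.eventually_all_finset B).2 fun b _ =>
      (Filter.eventually_all_finset B).2 fun b' _ => ?_
    by_cases hbb : b = b'
    · exact Filter.Eventually.of_forall fun ρ h => absurd hbb h
    · have h2 : 0 < dist b b' := dist_pos.2 hbb
      have h3 : Set.Iio (dist b b' / 3) ∈ 𝓝[>] (0 : ℝ) :=
        nhdsWithin_le_nhds (Iio_mem_nhds (by positivity))
      filter_upwards [h3] with ρ hρ _
      have : ρ < dist b b' / 3 := hρ
      linarith
  have h2 : Set.Iio (1 : ℝ) ∈ 𝓝[>] (0 : ℝ) := nhdsWithin_le_nhds (Iio_mem_nhds one_pos)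
  obtain ⟨ρ, ⟨h3, h4⟩, h5⟩ := ((h1.and h2).and self_mem_nhdsWithin).exists
  exact ⟨ρ, h5, h4, h3⟩

/-- the flux through a large circle -/
theorem flux_inf {B : Finset ℂ} (hD : PDt ((B : Set ℂ)ᶜ) J G U Θ)
    (hB : ∀ b ∈ B, ‖b‖ ≤ Real.exp (2 * Real.pi * Y₀)) (h01 : Y₀ < Y₁) {A₀ A : ℝ}
    (hU : ∃ C R : ℝ, ∀ t : ℂ, R ≤ ‖t‖ → (U t).re ≤ A₀ * Real.log ‖t‖ + C)
    (hG : ∃ C R : ℝ, ∀ t : ℂ, R ≤ ‖t‖ → (G t).re ≤ A * Real.log ‖t‖ + C) :
    flux (pb (fun ζ => qq (-ζ)) J) 1 Y₁ ≤ Real.pi * A / 2 := by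
  have hΩ : IsOpen ((B : Set ℂ)ᶜ) := B.finite_toSet.isClosed.isOpen_compl
  have hφ : DifferentiableOn ℂ (fun ζ => qq (-ζ)) (Hc Y₀) := fun ζ _ =>
    (hasDerivAt_qqn ζ).differentiableAt.differentiableWithinAt
  have h := hD.pull hΩ (isOpen_Hc Y₀) hφ (coordn_mem hB)
  have hgrow : ∀ {F : ℂ → ℂ} {a : ℝ}, ContinuousOn (fun z => (F (qq (-z))).re) (Hc Y₀) →
      (∃ C R : ℝ, ∀ t : ℂ, R ≤ ‖t‖ → (F t).re ≤ a * Real.log ‖t‖ + C) →
      ∃ β Y' : ℝ, ∀ Y₂ : ℝ, Y' ≤ Y₂ → (∫ x in (0 : ℝ)..1, (F (qq (-(x + Y₂ * I)))).re) ≤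
        (2 * Real.pi * a) * Y₂ + β := by
    intro F a hc hF
    obtain ⟨C, R, hR⟩ := hF
    refine ⟨C, max (Y₀ + 1) (Real.log (max R 1) / (2 * Real.pi)), fun Y₂ hY₂ => ?_⟩
    have h1 : Y₀ < Y₂ := by
      have := (le_max_left (Y₀ + 1) _).trans hY₂
      linarith
    have h2 : Real.log (max R 1) / (2 * Real.pi) ≤ Y₂ := (le_max_right _ _).trans hY₂
    have hpi := Real.pi_pos
    rw [div_le_iff₀ (by positivity)] at h2
    have h3 : R ≤ Real.exp (2 * Real.pi * Y₂) := by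
      have h4 : max R 1 ≤ Real.exp (2 * Real.pi * Y₂) := by
        rw [← Real.log_le_iff_le_exp (by positivity)]
        linarith
      exact (le_max_left _ _).trans h4
    refine mean_le (G := fun z => F (qq (-z))) hc h1 fun x => ?_
    have h4 : ‖qq (-((x : ℂ) + Y₂ * I))‖ = Real.exp (2 * Real.pi * Y₂) := by
      rw [norm_qq]
      congr 1
      simp
    have h5 := hR (qq (-((x : ℂ) + Y₂ * I))) (by rw [h4]; exact h3)
    rw [h4, Real.log_exp] at h5
    refine h5.trans (le_of_eq ?_)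
    ring
  have hcU : ContinuousOn (fun z => (U (qq (-z))).re) (Hc Y₀) :=
    Complex.continuous_re.comp_continuousOn h.smU.continuousOn
  have hcG : ContinuousOn (fun z => (G (qq (-z))).re) (Hc Y₀) :=
    Complex.continuous_re.comp_continuousOn h.smG.continuousOn
  have hE := end_energy h.smU h.imU (fun ζ _ => by simp only [qqn_add_one]) h.contΘ h.en h01
    (hgrow hcU hU)
  have h6 := end_growth h.smJ (fun ζ _ => coordn_per J ζ) h.rho h.smG h.imG h.contΘ h.err h01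
    hE (hgrow hcG hG)
  refine h6.trans (le_of_eq ?_)
  ring

/-- the count on the punctured plane -/
theorem punctured {B : Finset ℂ} {J G : ℝ → ℂ → ℂ} {U : ℂ → ℂ} {Θ : ℂ → ℝ}
    (hD : ∀ ε, 0 < ε → PDt ((B : Set ℂ)ᶜ) (J ε) (G ε) U Θ)
    (hUb : ∀ b ∈ B, ∃ C : ℝ, ∀ᶠ t in 𝓝[≠] b, (U t).re ≤ C)
    (hUi : ∃ A₀ C R : ℝ, ∀ t : ℂ, R ≤ ‖t‖ → (U t).re ≤ A₀ * Real.log ‖t‖ + C)
    {ν : ℂ → ℝ} (hGb : ∀ b ∈ B, ∃ C r₀ : ℝ, 0 < r₀ ∧ ∀ r : ℝ, 0 < r → r < r₀ →
      ∀ᶠ ε in 𝓝[>] (0 : ℝ), ∀ t : ℂ, ‖t - b‖ = r → (G ε t).re ≤ ν b * Real.log r + C)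
    (hGl : ∀ b ∈ B, ∀ r₀ : ℝ, 0 < r₀ → ∃ r : ℝ, 0 < r ∧ r < r₀ ∧ ∃ L : ℝ,
      ∀ᶠ ε in 𝓝[>] (0 : ℝ), ∀ t : ℂ, ‖t - b‖ = r → L ≤ (G ε t).re)
    {A : ℝ} (hGi : ∀ᶠ ε in 𝓝[>] (0 : ℝ), ∃ C R : ℝ, ∀ t : ℂ, R ≤ ‖t‖ →
      (G ε t).re ≤ A * Real.log ‖t‖ + C) :
    ∑ b ∈ B, ν b ≤ A := by
  classical
  have hpi := Real.pi_pos
  have hΩ : IsOpen ((B : Set ℂ)ᶜ) := B.finite_toSet.isClosed.isOpen_compl
  obtain ⟨ρ, hρ0, hρ1, hsep⟩ := exists_sep B
  -- radii
  have hrad : ∀ b ∈ B, ∃ r : ℝ, 0 < r ∧ r < ρ ∧ ∃ L : ℝ,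
      ∀ᶠ ε in 𝓝[>] (0 : ℝ), ∀ t : ℂ, ‖t - b‖ = r → L ≤ (G ε t).re := fun b hb =>
    hGl b hb ρ hρ0
  choose! r hr0 hrρ L hL using hrad
  set Y : ℂ → ℝ := fun b => -Real.log (r b) / (2 * Real.pi) with hYdef
  have hY : ∀ b ∈ B, Real.exp (-(2 * Real.pi * Y b)) = r b := by
    intro b hb
    rw [hYdef]
    simp only
    rw [show -(2 * Real.pi * (-Real.log (r b) / (2 * Real.pi))) = Real.log (r b) by field_simp]
    exact Real.exp_log (hr0 b hb)
  -- the local estimate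
  have hloc : ∀ b ∈ B, ∀ tol : ℝ, 0 < tol → ∀ᶠ ε in 𝓝[>] (0 : ℝ),
      flux (pb (fun ζ => b + qq ζ) (J ε)) 1 (Y b) ≤ -(Real.pi * ν b / 2) + tol := by
    intro b hb tol htol
    have hrb := hr0 b hb
    set Y₀ : ℝ := -Real.log (2 * r b) / (2 * Real.pi) with hY₀def
    have hY₀ : Real.exp (-(2 * Real.pi * Y₀)) = 2 * r b := by
      rw [hY₀def, show -(2 * Real.pi * (-Real.log (2 * r b) / (2 * Real.pi))) =
        Real.log (2 * r b) by field_simp]
      exact Real.exp_log (by positivity)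
    have h01 : Y₀ < Y b := by
      have h1 : Real.exp (-(2 * Real.pi * Y b)) < Real.exp (-(2 * Real.pi * Y₀)) := by
        rw [hY b hb, hY₀]
        linarith
      rw [Real.exp_lt_exp] at h1
      nlinarith
    have hmem : ∀ ζ ∈ Hc Y₀, b + qq ζ ∈ ((B : Set ℂ)ᶜ) := by
      refine coord_mem (r := 3 * ρ) (fun b' hb' hne => (hsep b hb b' hb' hne).le) ?_
      rw [hY₀]
      have := hrρ b hb
      linarith
    have hφ : DifferentiableOn ℂ (fun ζ => b + qq ζ) (Hc Y₀) := fun ζ _ =>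
      ((hasDerivAt_qq ζ).const_add b).differentiableAt.differentiableWithinAt
    have hP : ∀ ε, 0 < ε → PDt (Hc Y₀) (pb (fun ζ => b + qq ζ) (J ε))
        (fun z => G ε (b + qq z)) (fun z => U (b + qq z))
        (fun z => Θ (b + qq z) * ‖deriv (fun ζ => b + qq ζ) z‖) := fun ε hε =>
      (hD ε hε).pull hΩ (isOpen_Hc Y₀) hφ hmem
    have hn : ∀ x y : ℝ, ‖b + qq ((x : ℂ) + y * I) - b‖ = Real.exp (-(2 * Real.pi * y)) := by
      intro x y
      rw [add_sub_cancel_left, norm_qq]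
      simp
    -- finite energy
    have hE : ∃ E : ℝ, ∀ Y₂ : ℝ, Y b ≤ Y₂ → ∫ y in Y b..Y₂, ∫ x in (0 : ℝ)..1,
        (fun z => Θ (b + qq z) * ‖deriv (fun ζ => b + qq ζ) z‖) (x + y * I) ^ 2 ≤ E := by
      have h := hP 1 one_pos
      refine end_energy (α := 0) h.smU h.imU (fun ζ _ => by simp only [qq_add_one]) h.contΘ h.en
        h01 ?_
      obtain ⟨C, hC⟩ := hUb b hb
      rw [eventually_nhdsWithin_iff] at hC
      obtain ⟨s, hs, hball⟩ := Metric.eventually_nhds_iff_ball.mp hC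
      refine ⟨C, max (Y₀ + 1) (-Real.log (s / 2) / (2 * Real.pi)), fun Y₂ hY₂ => ?_⟩
      have h1 : Y₀ < Y₂ := by
        have := (le_max_left (Y₀ + 1) _).trans hY₂
        linarith
      have h2 : -Real.log (s / 2) / (2 * Real.pi) ≤ Y₂ := (le_max_right _ _).trans hY₂
      rw [div_le_iff₀ (by positivity)] at h2
      have h3 : Real.exp (-(2 * Real.pi * Y₂)) < s := by
        have h4 : Real.exp (-(2 * Real.pi * Y₂)) ≤ s / 2 := by
          rw [← Real.le_log_iff_exp_le (by positivity)]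
          linarith
        linarith
      have h5 := mean_le (G := fun z => U (b + qq z))
        (Complex.continuous_re.comp_continuousOn h.smU.continuousOn) h1 (c := C) fun x => ?_
      · linarith
      · refine hball (b + qq (x + Y₂ * I)) ?_ ?_
        · rw [Metric.mem_ball, dist_eq_norm, hn]
          exact h3
        · intro h6
          have h7 := hn x Y₂
          rw [show b + qq ((x : ℂ) + Y₂ * I) = b from h6, sub_self, norm_zero] at h7
          exact (Real.exp_pos _).ne h7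
    obtain ⟨E, hE⟩ := hE
    obtain ⟨C, r₀, hr₀, hGC⟩ := hGb b hb
    -- the choice of `Y₂`
    set η : ℝ := tol / 2 with hη
    have hη0 : 0 < η := half_pos htol
    set D : ℝ := |-(2 * Real.pi * ν b) * Y b + C - L b + E / η| with hDdef
    set Y₂ : ℝ := max (max (Y b) (-Real.log (r₀ / 2) / (2 * Real.pi)))
      (Y b + (D + 1) / (4 * η)) with hY₂
    have h12 : Y b ≤ Y₂ := (le_max_left _ _).trans (le_max_left _ _)
    have h12' : Y b < Y₂ := by
      have h1 : Y b + (D + 1) / (4 * η) ≤ Y₂ := le_max_right _ _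
      have h2 : 0 < (D + 1) / (4 * η) := by positivity
      linarith
    set s : ℝ := Real.exp (-(2 * Real.pi * Y₂)) with hs
    have hs0 : 0 < s := Real.exp_pos _
    have hsr : s < r₀ := by
      have h2 : -Real.log (r₀ / 2) / (2 * Real.pi) ≤ Y₂ :=
        (le_max_right _ _).trans (le_max_left _ _)
      rw [div_le_iff₀ (by positivity)] at h2
      have h4 : Real.exp (-(2 * Real.pi * Y₂)) ≤ r₀ / 2 := by
        rw [← Real.le_log_iff_exp_le (by positivity)]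
        linarith
      rw [hs]
      linarith
    filter_upwards [hGC s hs0 hsr, hL b hb, self_mem_nhdsWithin] with ε h1 h2 hε
    have h := hP ε hε
    have hcG : ContinuousOn (fun z => (G ε (b + qq z)).re) (Hc Y₀) :=
      Complex.continuous_re.comp_continuousOn h.smG.continuousOn
    have h3 : (∫ x in (0 : ℝ)..1, (G ε (b + qq (x + Y₂ * I))).re) ≤
        ν b * Real.log s + C :=
      mean_le (G := fun z => G ε (b + qq z)) hcG (h01.trans h12') fun x => h1 _ (by rw [hn])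
    have h4 : L b ≤ ∫ x in (0 : ℝ)..1, (G ε (b + qq (x + Y b * I))).re :=
      le_mean (G := fun z => G ε (b + qq z)) hcG h01 fun x => h2 _ (by rw [hn, hY b hb])
    have h5 := end_lemma h.smJ (fun ζ _ => coord_per b (J ε) ζ) h.rho h.smG h.imG h.contΘ h.err
      h01 h12 hη0 (hE Y₂ h12)
    rw [hs, Real.log_exp] at h3
    have h6 : (D + 1) / (4 * η) ≤ Y₂ - Y b := by
      have : Y b + (D + 1) / (4 * η) ≤ Y₂ := le_max_right _ _
      linarith
    rw [div_le_iff₀ (by positivity)] at h6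
    have h7 : -(2 * Real.pi * ν b) * Y b + C - L b + E / η ≤ D := le_abs_self _
    have h8 : 4 * (Y₂ - Y b) * (flux (pb (fun ζ => b + qq ζ) (J ε)) 1 (Y b) - η) ≤
        4 * (Y₂ - Y b) * (-(Real.pi * ν b / 2) + η) := by
      have e1 : 4 * (Y₂ - Y b) * (-(Real.pi * ν b / 2) + η) =
          (Y₂ - Y b) * (4 * η) - (2 * Real.pi * ν b) * (Y₂ - Y b) := by ring
      rw [e1]
      linarith
    have h9 := le_of_mul_le_mul_left h8 (by linarith)
    rw [hη] at h9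
    linarith
  -- the large circle
  obtain ⟨M, hM0, hM⟩ : ∃ M : ℝ, 0 < M ∧ ∀ b ∈ B, ‖b‖ + 1 ≤ M := by
    refine ⟨∑ b ∈ B, ‖b‖ + 1, by positivity, fun b hb => ?_⟩
    have := Finset.single_le_sum (f := fun b : ℂ => ‖b‖) (fun _ _ => norm_nonneg _) hb
    linarith
  set Z₀ : ℝ := Real.log M / (2 * Real.pi) with hZ₀
  have hZ₀' : Real.exp (2 * Real.pi * Z₀) = M := by
    rw [hZ₀, show 2 * Real.pi * (Real.log M / (2 * Real.pi)) = Real.log M by field_simp]
    exact Real.exp_log hM0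
  set Z₁ : ℝ := Z₀ + 1 with hZ₁
  have hZM : M < Real.exp (2 * Real.pi * Z₁) := by
    rw [← hZ₀', Real.exp_lt_exp]
    nlinarith
  obtain ⟨A₀, CU, RU, hUi⟩ := hUi
  -- conclusion
  refine le_of_forall_pos_le_add fun η hη => ?_
  set tol : ℝ := Real.pi * η / (2 * (B.card + 1)) with htol
  have htol0 : 0 < tol := by positivity
  have hall : ∀ᶠ ε in 𝓝[>] (0 : ℝ), ∀ b ∈ B,
      flux (pb (fun ζ => b + qq ζ) (J ε)) 1 (Y b) ≤ -(Real.pi * ν b / 2) + tol :=
    (Filter.eventually_all_finset B).2 fun b hb => hloc b hb tol htol0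
  obtain ⟨ε, ⟨h1, h2⟩, h3⟩ := ((hall.and hGi).and self_mem_nhdsWithin).exists
  have hε : 0 < ε := h3
  have hst := stokes_plane (hD ε hε).smJ (fun z hz => (hD ε hε).rho z hz) (Yi := Z₁) hr0 hY
    (fun b hb => by
      intro z hz
      rw [Metric.mem_closedBall, dist_eq_norm] at hz
      rw [mem_ball_zero_iff]
      have h4 : ‖z‖ ≤ ‖z - b‖ + ‖b‖ := by
        have := norm_add_le (z - b) b
        rwa [sub_add_cancel] at this
      have h5 := hrρ b hb
      have h6 := hM b hb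
      linarith)
    (fun b hb b' hb' hne => by
      rw [Set.disjoint_left]
      intro z hz hz'
      rw [Metric.mem_closedBall] at hz hz'
      have h4 := hsep b hb b' hb' hne
      have h5 := dist_triangle_left b b' z
      have h6 := hrρ b hb
      have h7 := hrρ b' hb'
      linarith)
  have hinf := flux_inf (Y₀ := Z₀) (Y₁ := Z₁) (hD ε hε)
    (fun b hb => by rw [hZ₀']; linarith [hM b hb]) (by rw [hZ₁]; linarith)
    ⟨CU, RU, hUi⟩ h2
  have hsum : ∑ b ∈ B, flux (pb (fun ζ => b + qq ζ) (J ε)) 1 (Y b) ≤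
      ∑ b ∈ B, (-(Real.pi * ν b / 2) + tol) := Finset.sum_le_sum h1
  have e1 : ∑ b ∈ B, (-(Real.pi * ν b / 2) + tol) =
      -(Real.pi / 2 * ∑ b ∈ B, ν b) + B.card * tol := by
    rw [Finset.sum_add_distrib, Finset.sum_neg_distrib, Finset.sum_const, nsmul_eq_mul,
      Finset.mul_sum]
    congr 2
    exact Finset.sum_congr rfl fun b _ => by ring
  have e2 : (B.card : ℝ) * tol ≤ Real.pi / 2 * η := by
    rw [htol, mul_div_assoc', div_le_iff₀ (by positivity)]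
    have : (0 : ℝ) ≤ Real.pi * η := by positivity
    nlinarith
  have e3 : Real.pi / 2 * ∑ b ∈ B, ν b ≤ Real.pi / 2 * (A + η) := by
    have : Real.pi * A / 2 = Real.pi / 2 * A := by ring
    rw [mul_add]
    linarith
  exact le_of_mul_le_mul_left e3 (by positivity)

end PU19
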