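import Pool.Agent.LibPU19.Cnt

/-! The count on the punctured plane, for families of real functions. -/

open Matrix Complex MeasureTheory Filter Topology
open UpperHalfPlane hiding I
open scoped ContDiff

namespace PU19

open SP38 US38

/-- circles on which `G` is bounded below -/
theorem exists_circle {Bs : Finset ℂ} {G : ℝ → ℂ → ℝ}
    (hlow : ∀ t₁ ∉ Bs, ∀ᶠ t in 𝓝[≠] t₁, ∃ C : ℝ, ∀ᶠ t' in 𝓝 t, ∀ ε, 0 < ε → -C ≤ G ε t')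
    {b : ℂ} {r₁ : ℝ} (hr₁ : 0 < r₁) (hb : ∀ t, 0 < ‖t - b‖ → ‖t - b‖ < r₁ → t ∉ Bs)
    {r₀ : ℝ} (hr₀ : 0 < r₀) : ∃ ρ : ℝ, 0 < ρ ∧ ρ < r₀ ∧ ∃ l : ℝ, ∀ ε : ℝ, 0 < ε →
      ∀ t : ℂ, ‖t - b‖ = ρ → l ≤ G ε t := by
  set Z : Set ℂ := {t | t ∉ Bs ∧ ¬ ∃ C : ℝ, ∀ᶠ t' in 𝓝 t, ∀ ε, 0 < ε → -C ≤ G ε t'} with hZ
  have hZc : Z.Countable := by
    have h1 : ∀ t ∈ {t : ℂ | t ∉ Bs}, {x | x ≠ t → x ∉ Z} ∈ 𝓝[{t : ℂ | t ∉ Bs}] t := by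
      intro t ht
      refine mem_nhdsWithin_of_mem_nhds ?_
      have h2 := hlow t ht
      rw [eventually_nhdsWithin_iff] at h2
      filter_upwards [h2] with x hx hne hxZ
      exact hxZ.2 (hx hne)
    obtain ⟨S, hS, hSc, hcov⟩ := TopologicalSpace.countable_cover_nhdsWithin h1
    refine hSc.mono fun t ht => ?_
    obtain ⟨x, hx, h7⟩ := Set.mem_iUnion₂.1 (hcov ht.1)
    by_contra hne
    exact h7 (fun h8 => hne (h8 ▸ hx)) ht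
  have hZi := hZc.image (fun t => ‖t - b‖)
  obtain ⟨ρ, ⟨hρ0, hρ1⟩, hρZ⟩ : ∃ ρ ∈ Set.Ioo (0 : ℝ) (min r₀ r₁),
      ρ ∉ (fun t => ‖t - b‖) '' Z := by
    by_contra hcon
    push Not at hcon
    have h1 : (Set.Ioo (0 : ℝ) (min r₀ r₁)).Countable := hZi.mono hcon
    exact (Cardinal.Real.Ioo_countable_iff.1 h1).not_gt (lt_min hr₀ hr₁)
  refine ⟨ρ, hρ0, hρ1.trans_le (min_le_left _ _), ?_⟩
  have hρr : ρ < r₁ := hρ1.trans_le (min_le_right _ _)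
  have h2 : ∃ l : ℝ, ∀ t ∈ Metric.sphere b ρ, ∀ ε : ℝ, 0 < ε → l ≤ G ε t := by
    refine (isCompact_sphere b ρ).induction_on
      (p := fun s => ∃ l : ℝ, ∀ t ∈ s, ∀ ε : ℝ, 0 < ε → l ≤ G ε t) ⟨0, by simp⟩ ?_ ?_ ?_
    · rintro s t hst ⟨l, hl⟩
      exact ⟨l, fun x hx => hl x (hst hx)⟩
    · rintro s t ⟨l, hl⟩ ⟨l', hl'⟩
      refine ⟨min l l', ?_⟩
      rintro x (hx | hx) ε hε
      · exact (min_le_left _ _).trans (hl x hx ε hε)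
      · exact (min_le_right _ _).trans (hl' x hx ε hε)
    · intro t ht
      rw [mem_sphere_iff_norm] at ht
      have htB : t ∉ Bs := hb t (by rw [ht]; exact hρ0) (by rw [ht]; exact hρr)
      have htZ : t ∉ Z := fun h => hρZ ⟨t, h, ht⟩
      have h3 : ∃ C : ℝ, ∀ᶠ t' in 𝓝 t, ∀ ε, 0 < ε → -C ≤ G ε t' := by
        by_contra hcon
        exact htZ ⟨htB, hcon⟩
      obtain ⟨C, hC⟩ := h3
      exact ⟨_, mem_nhdsWithin_of_mem_nhds hC, -C, fun x hx => hx⟩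
  obtain ⟨l, hl⟩ := h2
  exact ⟨l, fun ε hε t ht => hl t (by rw [mem_sphere_iff_norm]; exact ht) ε hε⟩

/-- the count in one variable -/
theorem oneVarU (Bs : Finset ℂ) (μ : ℂ → ℝ) (A : ℝ) (G : ℝ → ℂ → ℝ) (j : ℝ → ℂ → ℂ)
    (U : ℂ → ℝ) {C₁ : ℝ} (hC₁ : 0 ≤ C₁)
    (hG : ∀ ε, 0 < ε → ∀ t ∉ Bs, ContDiffAt ℝ ∞ (G ε) t)
    (hj : ∀ ε, 0 < ε → ∀ t ∉ Bs, ContDiffAt ℝ ∞ (j ε) t)
    (hU : ∀ t ∉ Bs, ContDiffAt ℝ ∞ U t)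
    (hin : ∀ ε, 0 < ε → ∀ t ∉ Bs, 0 ≤ rho (j ε) t ∧
      ‖j ε t - dz (fun t => ((G ε t : ℝ) : ℂ)) t / 2‖ ^ 2 ≤
        C₁ * (dzb (dz (fun t => ((U t : ℝ) : ℂ))) t).re)
    (hUb : ∀ b ∈ Bs, ∃ C : ℝ, ∀ᶠ t in 𝓝[≠] b, U t ≤ C)
    (hUi : ∃ A₀ C R : ℝ, ∀ t, R ≤ ‖t‖ → U t ≤ A₀ * Real.log ‖t‖ + C)
    (hlow : ∀ t₁ ∉ Bs, ∀ᶠ t in 𝓝[≠] t₁, ∃ C : ℝ, ∀ᶠ t' in 𝓝 t, ∀ ε, 0 < ε → -C ≤ G ε t')
    (hup : ∀ b ∈ Bs, ∃ C r c : ℝ, 0 < r ∧ 0 < c ∧ ∀ t, t ≠ b → ‖t - b‖ < r → ∀ ε, 0 < ε →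
      ε ≤ 1 → ε ≤ c * ‖t - b‖ ^ 2 → G ε t ≤ μ b * Real.log ‖t - b‖ + C)
    (hinf : ∃ C R : ℝ, ∀ t, R ≤ ‖t‖ → ∀ ε, 0 < ε → ε ≤ 1 → G ε t ≤ A * Real.log ‖t‖ + C) :
    ∑ b ∈ Bs, μ b ≤ A := by
  classical
  have hΩ : IsOpen ((Bs : Set ℂ)ᶜ) := Bs.finite_toSet.isClosed.isOpen_compl
  have hmem : ∀ t, t ∈ ((Bs : Set ℂ)ᶜ) ↔ t ∉ Bs := fun t => by simp
  obtain ⟨ρ, hρ0, -, hsep⟩ := exists_sep Bs
  have hnb : ∀ b ∈ Bs, ∀ t, 0 < ‖t - b‖ → ‖t - b‖ < ρ → t ∉ Bs := by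
    intro b hb t h0 h1 htB
    have hne : b ≠ t := by
      rintro rfl
      simp at h0
    have h2 := hsep b hb t htB hne
    rw [dist_comm, dist_eq_norm] at h2
    linarith
  have hsm : ∀ {f : ℂ → ℝ}, (∀ t ∉ Bs, ContDiffAt ℝ ∞ f t) →
      SmS ((Bs : Set ℂ)ᶜ) (fun t => ((f t : ℝ) : ℂ)) := fun hf t ht =>
    (Complex.ofRealCLM.contDiff.contDiffAt.comp t (hf t ((hmem t).1 ht))).contDiffWithinAt
  set V : ℂ → ℂ := fun t => (C₁ : ℂ) * ((U t : ℝ) : ℂ) with hV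
  have hUs := hsm hU
  have hVs : SmS ((Bs : Set ℂ)ᶜ) V := contDiffOn_const.mul hUs
  have hVd : ∀ t ∈ ((Bs : Set ℂ)ᶜ), rho (fun z => SP38.dz V z / 2) t =
      C₁ * (dzb (dz (fun t => ((U t : ℝ) : ℂ))) t).re := by
    intro t ht
    have h1 : (fun z => SP38.dz V z / 2) =ᶠ[𝓝 t]
        fun z => ((C₁ / 2 : ℝ) : ℂ) * SP38.dz (fun t => ((U t : ℝ) : ℂ)) z := by
      filter_upwards [hΩ.mem_nhds ht] with x hx
      rw [hV, WirtM_dz_smul _ (SmS.differentiableAt hΩ hUs hx)]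
      push_cast
      ring
    rw [rho, dzb_congr h1, WirtM_dzb_smul _ (SmS.differentiableAt hΩ (SmS.dz hΩ hUs) ht),
      re_ofReal_mul]
    ring
  set Θ : ℂ → ℝ := fun t => √(rho (fun z => SP38.dz V z / 2) t) with hΘ
  have hΘc : ContinuousOn Θ ((Bs : Set ℂ)ᶜ) := by
    have h1 : SmS ((Bs : Set ℂ)ᶜ) (SP38.dzb fun z => SP38.dz V z / 2) :=
      SmS.dzb hΩ ((SmS.dz hΩ hVs).div_const 2)
    exact (continuousOn_const.mul (Complex.continuous_re.comp_continuousOn h1.continuousOn)).sqrt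
  refine punctured (B := Bs) (J := j) (G := fun ε t => ((G ε t : ℝ) : ℂ)) (U := V) (Θ := Θ)
    (fun ε hε => ?_) ?_ ?_ ?_ ?_ ?_
  · refine ⟨fun t ht => (hj ε hε t ((hmem t).1 ht)).contDiffWithinAt,
      fun t ht => (hin ε hε t ((hmem t).1 ht)).1, hsm (hG ε hε), fun t _ => Complex.ofReal_im _,
      hVs, fun t _ => ?_, hΘc, fun t ht => ?_, fun t ht => ?_⟩
    · rw [hV]
      simp
    · have h1 := (hin ε hε t ((hmem t).1 ht)).2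
      rw [← hVd t ht] at h1
      exact Real.le_sqrt_of_sq_le h1
    · have h1 := (hin ε hε t ((hmem t).1 ht)).2
      rw [← hVd t ht] at h1
      rw [hΘ]
      simp only
      rw [Real.sq_sqrt ((sq_nonneg _).trans h1)]
  · intro b hb
    obtain ⟨C, hC⟩ := hUb b hb
    refine ⟨C₁ * C, ?_⟩
    filter_upwards [hC] with t ht
    have h1 : (V t).re = C₁ * U t := by simp [hV]
    rw [h1]
    exact mul_le_mul_of_nonneg_left ht hC₁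
  · obtain ⟨A₀, C, R, hC⟩ := hUi
    refine ⟨C₁ * A₀, C₁ * C, R, fun t ht => ?_⟩
    have h1 : (V t).re = C₁ * U t := by simp [hV]
    rw [h1]
    have := mul_le_mul_of_nonneg_left (hC t ht) hC₁
    linarith
  · intro b hb
    obtain ⟨C, r, c, hr, hc, hC⟩ := hup b hb
    refine ⟨C, r, hr, fun s hs0 hsr => ?_⟩
    have h1 : Set.Iic (1 : ℝ) ∈ 𝓝[>] (0 : ℝ) := nhdsWithin_le_nhds (Iic_mem_nhds one_pos)
    have h2 : Set.Iic (c * s ^ 2) ∈ 𝓝[>] (0 : ℝ) :=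
      nhdsWithin_le_nhds (Iic_mem_nhds (by positivity))
    filter_upwards [h1, h2, self_mem_nhdsWithin] with ε h3 h4 h5 t ht
    have h6 := hC t (by rintro rfl; simp at ht; exact hs0.ne ht) (by rw [ht]; exact hsr) ε h5 h3
      (by rw [ht]; exact h4)
    rw [ht] at h6
    simpa using h6
  · intro b hb r₀ hr₀
    obtain ⟨s, h1, h2, l, h3⟩ := exists_circle hlow hρ0 (hnb b hb) hr₀
    refine ⟨s, h1, h2, l, eventually_of_mem self_mem_nhdsWithin fun ε hε t ht => ?_⟩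
    simpa using h3 ε hε t ht
  · obtain ⟨C, R, hC⟩ := hinf
    have h1 : Set.Iic (1 : ℝ) ∈ 𝓝[>] (0 : ℝ) := nhdsWithin_le_nhds (Iic_mem_nhds one_pos)
    filter_upwards [h1, self_mem_nhdsWithin] with ε h3 h5
    refine ⟨C, R, fun t ht => ?_⟩
    simpa using hC t ht ε h5 h3

end PU19
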