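import Pool.Agent.LibPU19.Sto

/-! Data of potential theory and their pull backs. -/

open Matrix Complex MeasureTheory Filter Topology
open UpperHalfPlane hiding I
open scoped ContDiff

namespace PU19

open SP38 US38

/-- a form `J` with nonnegative divergence, which is `∂ G / 2` up to an error `Θ`, and a
subharmonic function `U` which controls `Θ ^ 2` -/
structure PDt (Ω : Set ℂ) (J G U : ℂ → ℂ) (Θ : ℂ → ℝ) : Prop where
  smJ : SmS Ω J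
  rho : ∀ z ∈ Ω, 0 ≤ US38.rho J z
  smG : SmS Ω G
  imG : ∀ z ∈ Ω, (G z).im = 0
  smU : SmS Ω U
  imU : ∀ z ∈ Ω, (U z).im = 0
  contΘ : ContinuousOn Θ Ω
  err : ∀ z ∈ Ω, ‖J z - SP38.dz G z / 2‖ ≤ Θ z
  en : ∀ z ∈ Ω, Θ z ^ 2 ≤ US38.rho (fun z => SP38.dz U z / 2) z

variable {Ω Ω' : Set ℂ} {J G U φ : ℂ → ℂ} {Θ : ℂ → ℝ} {Y₀ Y₁ Y₂ : ℝ}

theorem PDt.pull (h : PDt Ω J G U Θ) (hΩ : IsOpen Ω) (hΩ' : IsOpen Ω')
    (hφ : DifferentiableOn ℂ φ Ω') (hm : ∀ z ∈ Ω', φ z ∈ Ω) :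
    PDt Ω' (pb φ J) (fun z => G (φ z)) (fun z => U (φ z)) (fun z => Θ (φ z) * ‖deriv φ z‖) := by
  have hdφ : ∀ z ∈ Ω', DifferentiableAt ℂ φ z := fun z hz =>
    hφ.differentiableAt (hΩ'.mem_nhds hz)
  have hder : ∀ {f : ℂ → ℂ}, SmS Ω f → ∀ z ∈ Ω',
      SP38.dz (fun z => f (φ z)) z = SP38.dz f (φ z) * deriv φ z := fun hf z hz =>
    dz_comp (SmS.differentiableAt hΩ hf (hm z hz)) (hdφ z hz)
  refine ⟨SmS_pb hΩ hΩ' h.smJ hφ hm, fun z hz => ?_, SmS.compS hΩ' h.smG hφ hm,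
    fun z hz => h.imG _ (hm z hz), SmS.compS hΩ' h.smU hφ hm, fun z hz => h.imU _ (hm z hz),
    ?_, fun z hz => ?_, fun z hz => ?_⟩
  · rw [rho_pb hΩ hΩ' h.smJ hφ hm hz]
    exact mul_nonneg (h.rho _ (hm z hz)) (sq_nonneg _)
  · exact (h.contΘ.comp hφ.continuousOn hm).mul (hφ.deriv hΩ').continuousOn.norm
  · rw [hder h.smG z hz, pb]
    have h1 : J (φ z) * deriv φ z - SP38.dz G (φ z) * deriv φ z / 2 =
        (J (φ z) - SP38.dz G (φ z) / 2) * deriv φ z := by ring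
    rw [h1, norm_mul]
    exact mul_le_mul_of_nonneg_right (h.err _ (hm z hz)) (norm_nonneg _)
  · set K : ℂ → ℂ := fun z => SP38.dz U z / 2 with hK
    have hKs : SmS Ω K := (SmS.dz hΩ h.smU).div_const 2
    have h1 : US38.rho (fun z => SP38.dz (fun z => U (φ z)) z / 2) z = US38.rho (pb φ K) z := by
      rw [US38.rho, US38.rho, dzb_congr]
      filter_upwards [hΩ'.mem_nhds hz] with w hw
      rw [hder h.smU w hw, pb]
      ring
    rw [h1, rho_pb hΩ hΩ' hKs hφ hm hz, mul_pow]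
    exact mul_le_mul_of_nonneg_right (h.en _ (hm z hz)) (sq_nonneg _)

/-- the mean over a horocycle is at most the supremum -/
theorem mean_le (hG : ContinuousOn (fun z => (G z).re) (Hc Y₀)) {y c : ℝ} (hy : Y₀ < y)
    (hc : ∀ x : ℝ, (G (x + y * I)).re ≤ c) : (∫ x in (0 : ℝ)..1, (G (x + y * I)).re) ≤ c := by
  have h1 : (∫ x in (0 : ℝ)..1, (G (x + y * I)).re) ≤ ∫ _ in (0 : ℝ)..1, c :=
    intervalIntegral.integral_mono_on zero_le_one ((strip_cont hG hy).intervalIntegrable _ _)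
      intervalIntegrable_const fun x _ => hc x
  simpa using h1

theorem le_mean (hG : ContinuousOn (fun z => (G z).re) (Hc Y₀)) {y c : ℝ} (hy : Y₀ < y)
    (hc : ∀ x : ℝ, c ≤ (G (x + y * I)).re) : c ≤ (∫ x in (0 : ℝ)..1, (G (x + y * I)).re) := by
  have h1 : (∫ _ in (0 : ℝ)..1, c) ≤ ∫ x in (0 : ℝ)..1, (G (x + y * I)).re :=
    intervalIntegral.integral_mono_on zero_le_one intervalIntegrable_const
      ((strip_cont hG hy).intervalIntegrable _ _) fun x _ => hc x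
  simpa using h1

/-- the coordinate at a puncture -/
theorem coord_mem {B : Finset ℂ} {b : ℂ} {r : ℝ} (hsep : ∀ b' ∈ B, b ≠ b' → r ≤ dist b b')
    (hY : Real.exp (-(2 * Real.pi * Y₀)) ≤ r) :
    ∀ ζ ∈ Hc Y₀, b + qq ζ ∈ ((B : Set ℂ)ᶜ) := by
  intro ζ hζ hmem
  have h1 : Y₀ < ζ.im := hζ
  have h2 : dist b (b + qq ζ) = Real.exp (-(2 * Real.pi * ζ.im)) := by
    rw [dist_comm, dist_eq_norm, add_sub_cancel_left, norm_qq]
  have h3 : b ≠ b + qq ζ := by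
    intro h4
    rw [← h4, dist_self] at h2
    exact (Real.exp_pos _).ne h2
  have h4 := hsep _ hmem h3
  rw [h2] at h4
  have h5 : Real.exp (-(2 * Real.pi * ζ.im)) < Real.exp (-(2 * Real.pi * Y₀)) := by
    rw [Real.exp_lt_exp]
    have := Real.pi_pos
    nlinarith
  linarith

theorem coord_per (b : ℂ) (J : ℂ → ℂ) (ζ : ℂ) :
    pb (fun ζ => b + qq ζ) J (ζ + (1 : ℝ)) = pb (fun ζ => b + qq ζ) J ζ := by
  rw [pb_qq, pb_qq, qq_add_one]

theorem qqn_add_one (ζ : ℂ) : qq (-(ζ + (1 : ℝ))) = qq (-ζ) := by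
  have h1 := qq_add_one (-ζ - (1 : ℝ))
  rw [sub_add_cancel] at h1
  rw [h1]
  congr 1
  push_cast
  ring

theorem coordn_per (J : ℂ → ℂ) (ζ : ℂ) :
    pb (fun ζ => qq (-ζ)) J (ζ + (1 : ℝ)) = pb (fun ζ => qq (-ζ)) J ζ := by
  rw [pb, pb, (hasDerivAt_qqn _).deriv, (hasDerivAt_qqn _).deriv, qqn_add_one]

theorem coordn_mem {B : Finset ℂ} (hB : ∀ b ∈ B, ‖b‖ ≤ Real.exp (2 * Real.pi * Y₀)) :
    ∀ ζ ∈ Hc Y₀, qq (-ζ) ∈ ((B : Set ℂ)ᶜ) := by
  intro ζ hζ hmem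
  have h1 : Y₀ < ζ.im := hζ
  have h2 := hB _ hmem
  rw [norm_qq] at h2
  have h3 : Real.exp (2 * Real.pi * Y₀) < Real.exp (-(2 * Real.pi * (-ζ).im)) := by
    rw [Real.exp_lt_exp, Complex.neg_im]
    have := Real.pi_pos
    nlinarith
  linarith

end PU19
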