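import Pool.Agent.LibPU19.End
import Mathlib.Analysis.Calculus.BumpFunction.InnerProduct

/-! Stokes on the punctured plane. -/

open Matrix Complex MeasureTheory Filter Topology
open UpperHalfPlane hiding I
open scoped ContDiff

namespace PU19

open SP38 US38

theorem pb_qq (b : ℂ) (J : ℂ → ℂ) (ζ : ℂ) :
    pb (fun ζ => b + qq ζ) J ζ = J (b + qq ζ) * (2 * Real.pi * I * qq ζ) := by
  rw [pb, ((hasDerivAt_qq ζ).const_add b).deriv]

theorem hasDerivAt_qqn (ζ : ℂ) :
    HasDerivAt (fun ζ => qq (-ζ)) (-(2 * Real.pi * I * qq (-ζ))) ζ := by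
  have h1 := (hasDerivAt_qq (-ζ)).comp ζ (hasDerivAt_neg ζ)
  have h2 : 2 * Real.pi * I * qq (-ζ) * -1 = -(2 * Real.pi * I * qq (-ζ)) := by ring
  rw [h2] at h1
  exact h1

theorem pb_qqn (J : ℂ → ℂ) (ζ : ℂ) :
    pb (fun ζ => qq (-ζ)) J ζ = -pb (fun ζ => 0 + qq ζ) J (-ζ) := by
  rw [pb_qq, pb, (hasDerivAt_qqn ζ).deriv, zero_add]
  ring

theorem qq_add_one (ζ : ℂ) : qq (ζ + (1 : ℝ)) = qq ζ := by
  have := qq_add_nat ζ 1
  simpa using this

theorem flux_qqn (J : ℂ → ℂ) (y : ℝ) :
    flux (pb (fun ζ => qq (-ζ)) J) 1 y = -flux (pb (fun ζ => 0 + qq ζ) J) 1 (-y) := by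
  have hper : ∀ ζ, pb (fun ζ => 0 + qq ζ) J (ζ + (1 : ℝ)) = pb (fun ζ => 0 + qq ζ) J ζ := by
    intro ζ
    rw [pb_qq, pb_qq, qq_add_one]
  set f : ℝ → ℝ := fun x => (I * pb (fun ζ => 0 + qq ζ) J (x + ((-y : ℝ) : ℂ) * I)).re with hf
  have h1 : flux (pb (fun ζ => qq (-ζ)) J) 1 y = ∫ x in (0 : ℝ)..1, -f (1 - x) := by
    rw [flux]
    refine intervalIntegral.integral_congr fun x _ => ?_
    simp only [hf]
    rw [pb_qqn]
    have h2 : (((1 - x : ℝ) : ℂ) + ((-y : ℝ) : ℂ) * I) = -(x + y * I) + (1 : ℝ) := by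
      push_cast
      ring
    rw [h2, hper]
    simp
  rw [h1, intervalIntegral.integral_neg, intervalIntegral.integral_comp_sub_left f 1]
  simp [flux, hf]

/-- Stokes on the punctured plane -/
theorem stokes_plane {B : Finset ℂ} {J : ℂ → ℂ} (hJ : SmS ((B : Set ℂ)ᶜ) J)
    (hρ : ∀ z : ℂ, z ∉ B → 0 ≤ rho J z) {Yi : ℝ} {r Y : ℂ → ℝ} (hr : ∀ b ∈ B, 0 < r b)
    (hY : ∀ b ∈ B, Real.exp (-(2 * Real.pi * Y b)) = r b)
    (hsub : ∀ b ∈ B, Metric.closedBall b (r b) ⊆ Metric.ball 0 (Real.exp (2 * Real.pi * Yi)))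
    (hdis : ∀ b ∈ B, ∀ b' ∈ B, b ≠ b' →
      Disjoint (Metric.closedBall b (r b)) (Metric.closedBall b' (r b'))) :
    0 ≤ flux (pb (fun ζ => qq (-ζ)) J) 1 Yi +
      ∑ b ∈ B, flux (pb (fun ζ => b + qq ζ) J) 1 (Y b) := by
  classical
  set R : ℝ := Real.exp (2 * Real.pi * Yi) with hR
  have hR0 : 0 < R := Real.exp_pos _
  -- the cutoffs
  have hbump : ∀ b ∈ B, ∃ f : ℂ → ℝ, ContDiff ℝ ∞ f ∧ (∀ z ∈ Metric.ball b (r b / 4), f z = 0) ∧
      ∀ z, z ∉ Metric.ball b (r b / 2) → f z = 1 := by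
    intro b hb
    have hrb := hr b hb
    let φ : ContDiffBump b := ⟨r b / 4, r b / 2, by positivity, by linarith⟩
    refine ⟨fun z => 1 - φ z, contDiff_const.sub φ.contDiff, fun z hz => ?_, fun z hz => ?_⟩
    · show 1 - φ z = 0
      rw [φ.one_of_mem_closedBall (Metric.ball_subset_closedBall hz), sub_self]
    · show 1 - φ z = 1
      have h1 : z ∉ Function.support φ := by
        rw [φ.support_eq]
        exact hz
      rw [Function.notMem_support.1 h1, sub_zero]
  choose! f hfs hf0 hf1 using hbump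
  set χ : ℂ → ℝ := fun z => ∏ b ∈ B, f b z with hχ
  have hχs : ContDiff ℝ ∞ χ := contDiff_prod fun b hb => hfs b hb
  set F : ℂ → ℂ := fun z => (χ z : ℂ) * J z with hF
  have hχ1 : ∀ z, (∀ b ∈ B, z ∉ Metric.ball b (r b / 2)) → χ z = 1 := fun z hz =>
    Finset.prod_eq_one fun b hb => hf1 b hb z (hz b hb)
  have hχ0 : ∀ b ∈ B, ∀ z ∈ Metric.ball b (r b / 4), χ z = 0 := fun b hb z hz =>
    Finset.prod_eq_zero hb (hf0 b hb z hz)
  have hFs : SmS Set.univ F := by
    intro z _
    by_cases hz : z ∈ B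
    · have h1 : F =ᶠ[𝓝 z] fun _ => 0 := by
        have h2 := hr z hz
        filter_upwards [Metric.ball_mem_nhds z (show 0 < r z / 4 by linarith)] with w hw
        show (χ w : ℂ) * J w = 0
        rw [hχ0 z hz w hw]
        simp
      exact (contDiffAt_const.congr_of_eventuallyEq h1).contDiffWithinAt
    · have hn : ((B : Set ℂ)ᶜ) ∈ 𝓝 z := B.finite_toSet.isClosed.isOpen_compl.mem_nhds hz
      have h1 : ContDiffAt ℝ ∞ J z := (hJ z hz).contDiffAt hn
      have h2 : ContDiffAt ℝ ∞ (fun z => (χ z : ℂ)) z :=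
        Complex.ofRealCLM.contDiff.contDiffAt.comp z hχs.contDiffAt
      exact (h2.mul h1).contDiffWithinAt
  have hFJ : ∀ z, (∀ b ∈ B, z ∉ Metric.ball b (r b / 2)) → F z = J z := fun z hz => by
    show (χ z : ℂ) * J z = J z
    rw [hχ1 z hz, ofReal_one, one_mul]
  have hρF : Continuous (rho F) := by
    have h1 : ContinuousOn (SP38.dzb F) Set.univ := (SmS.dzb isOpen_univ hFs).continuousOn
    exact continuous_const.mul (Complex.continuous_re.comp (continuousOn_univ.1 h1))
  have hρFJ : ∀ z, (∀ b ∈ B, z ∉ Metric.closedBall b (r b / 2)) → rho F z = rho J z := by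
    intro z hz
    have h1 : F =ᶠ[𝓝 z] J := by
      have h2 : (⋃ b ∈ B, Metric.closedBall b (r b / 2))ᶜ ∈ 𝓝 z := by
        refine (B.finite_toSet.isClosed_biUnion fun b _ =>
          Metric.isClosed_closedBall).isOpen_compl.mem_nhds ?_
        intro h3
        simp only [Set.mem_iUnion] at h3
        obtain ⟨b, hb, h4⟩ := h3
        exact hz b hb h4
      filter_upwards [h2] with w hw
      refine hFJ w fun b hb h3 => hw ?_
      simp only [Set.mem_iUnion]
      exact ⟨b, hb, Metric.ball_subset_closedBall h3⟩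
    rw [rho, rho, dzb_congr h1]
  -- the big disc
  have hbig := disc_integral isOpen_univ hFs (z₀ := 0) (r := R) hR0 (Set.subset_univ _)
    (Y₁ := -Yi) (by rw [hR]; congr 1; ring)
  have hbigF : flux (pb (fun ζ => 0 + qq ζ) F) 1 (-Yi) =
      flux (pb (fun ζ => 0 + qq ζ) J) 1 (-Yi) := by
    rw [flux, flux]
    refine intervalIntegral.integral_congr fun x _ => ?_
    show (I * pb (fun ζ => 0 + qq ζ) F (x + ((-Yi : ℝ) : ℂ) * I)).re =
      (I * pb (fun ζ => 0 + qq ζ) J (x + ((-Yi : ℝ) : ℂ) * I)).re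
    rw [pb_qq, pb_qq, hFJ]
    intro b hb hmem
    have h1 := hsub b hb (Metric.ball_subset_closedBall
      (Metric.ball_subset_ball (by linarith [hr b hb]) hmem))
    rw [Metric.mem_ball, dist_zero_right, zero_add, norm_qq] at h1
    have h2 : ((x : ℂ) + ((-Yi : ℝ) : ℂ) * I).im = -Yi := by simp
    rw [h2, hR] at h1
    have h3 : -(2 * Real.pi * -Yi) = 2 * Real.pi * Yi := by ring
    rw [h3] at h1
    exact lt_irrefl _ h1
  -- the small discs
  have hsmall : ∀ b ∈ B, ∫ z in Metric.ball b (r b), rho F z =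
      -flux (pb (fun ζ => b + qq ζ) J) 1 (Y b) := by
    intro b hb
    rw [disc_integral isOpen_univ hFs (z₀ := b) (hr b hb) (Set.subset_univ _) (hY b hb)]
    congr 1
    rw [flux, flux]
    refine intervalIntegral.integral_congr fun x _ => ?_
    show (I * pb (fun ζ => b + qq ζ) F (x + Y b * I)).re =
      (I * pb (fun ζ => b + qq ζ) J (x + Y b * I)).re
    rw [pb_qq, pb_qq, hFJ]
    have h2 : ((x : ℂ) + (Y b : ℂ) * I).im = Y b := by simp
    have hd : dist (b + qq (x + Y b * I)) b = r b := by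
      rw [dist_eq_norm, add_sub_cancel_left, norm_qq, h2, hY b hb]
    intro b' hb' hmem
    by_cases hbb : b = b'
    · subst hbb
      rw [Metric.mem_ball, hd] at hmem
      linarith [hr b hb]
    · have h3 : b + qq (x + Y b * I) ∈ Metric.closedBall b (r b) := by
        rw [Metric.mem_closedBall, hd]
      have h4 : b + qq (x + Y b * I) ∈ Metric.closedBall b' (r b') :=
        Metric.ball_subset_closedBall
          (Metric.ball_subset_ball (by linarith [hr b' hb']) hmem)
      exact Set.disjoint_left.1 (hdis b hb b' hb' hbb) h3 h4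
  -- comparison
  have hint : IntegrableOn (rho F) (Metric.ball 0 R) :=
    (hρF.continuousOn.integrableOn_compact (isCompact_closedBall 0 R)).mono_set
      Metric.ball_subset_closedBall
  set S : Set ℂ := ⋃ b ∈ B, Metric.ball b (r b) with hS
  have hSm : MeasurableSet S := Finset.measurableSet_biUnion _ fun b _ =>
    Metric.isOpen_ball.measurableSet
  have hSsub : S ⊆ Metric.ball 0 R := Set.iUnion₂_subset fun b hb =>
    Metric.ball_subset_closedBall.trans (hsub b hb)
  have hsplit : ∫ z in S, rho F z ≤ ∫ z in Metric.ball 0 R, rho F z := by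
    have h1 : ∫ z in Metric.ball 0 R, rho F z = (∫ z in S, rho F z) +
        ∫ z in Metric.ball 0 R \ S, rho F z := by
      rw [← setIntegral_union Set.disjoint_sdiff_right
        (Metric.isOpen_ball.measurableSet.diff hSm) (hint.mono_set hSsub)
        (hint.mono_set Set.sdiff_subset), Set.union_sdiff_cancel hSsub]
    rw [h1]
    have h2 : 0 ≤ ∫ z in Metric.ball 0 R \ S, rho F z := by
      refine setIntegral_nonneg (Metric.isOpen_ball.measurableSet.diff hSm) fun z hz => ?_
      have h3 : ∀ b ∈ B, z ∉ Metric.closedBall b (r b / 2) := by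
        intro b hb hmem
        apply hz.2
        simp only [hS, Set.mem_iUnion]
        exact ⟨b, hb, Metric.closedBall_subset_ball (by linarith [hr b hb]) hmem⟩
      rw [hρFJ z h3]
      refine hρ z fun hzB => h3 z hzB (Metric.mem_closedBall_self ?_)
      linarith [hr z hzB]
    linarith
  rw [hS, integral_biUnion_finset B (fun z _ => Metric.isOpen_ball.measurableSet) ?_ ?_] at hsplit
  · rw [Finset.sum_congr rfl hsmall, Finset.sum_neg_distrib, hbig, hbigF] at hsplit
    rw [flux_qqn]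
    linarith
  · intro b hb b' hb' hne
    exact (hdis b hb b' hb' hne).mono Metric.ball_subset_closedBall Metric.ball_subset_closedBall
  · intro b hb
    exact hint.mono_set (Metric.ball_subset_closedBall.trans (hsub b hb))

end PU19
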